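import Mathlib

set_option autoImplicit false

/-!
# Mod 2 chains of simplicial sets

Chains with coefficients in `ZMod 2`, degenerate chains, the boundary, and the description of
normalised cocycles as linear functionals.
-/

open CategoryTheory Opposite Simplicial

namespace Pool.Agent.W2helper51.HSC

/-- The coefficients. -/
abbrev F2 : Type := ZMod 2

/-- The simplices of dimension `k`. -/
abbrev Sx (W : SSet.{0}) (k : ℕ) : Type := W.obj (op ⦋k⦌)

section res

variable {W V : SSet.{0}}

/-- Restriction of a simplex along a map of simplices. -/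
def res {m k : ℕ} (α : ⦋m⦌ ⟶ ⦋k⦌) (x : Sx W k) : Sx W m := W.map α.op x

theorem res_id {k : ℕ} (x : Sx W k) : res (𝟙 ⦋k⦌) x = x := by
  simp [res]

theorem res_res {l m k : ℕ} (α : ⦋l⦌ ⟶ ⦋m⦌) (β : ⦋m⦌ ⟶ ⦋k⦌) (x : Sx W k) :
    res α (res β x) = res (α ≫ β) x := by
  simp [res]

/-- A simplicial map on simplices. -/
def ap (f : V ⟶ W) {k : ℕ} (x : Sx V k) : Sx W k := f.app (op ⦋k⦌) x

theorem ap_res (f : V ⟶ W) {m k : ℕ} (α : ⦋m⦌ ⟶ ⦋k⦌) (x : Sx V k) :
    ap f (res α x) = res α (ap f x) :=
  NatTrans.naturality_apply f α.op x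

theorem ap_comp {U : SSet.{0}} (g : U ⟶ V) (f : V ⟶ W) {k : ℕ} (x : Sx U k) :
    ap (g ≫ f) x = ap f (ap g x) := rfl

theorem ap_id {k : ℕ} (x : Sx W k) : ap (𝟙 W) x = x := rfl

/-- A simplex is degenerate if it is a restriction of a simplex of lower dimension. -/
def Deg {k : ℕ} (x : Sx W k) : Prop :=
  ∃ m, m < k ∧ ∃ (α : ⦋k⦌ ⟶ ⦋m⦌) (y : Sx W m), x = res α y

theorem Deg.ap {k : ℕ} {x : Sx V k} (h : Deg x) (f : V ⟶ W) : Deg (ap f x) := by
  obtain ⟨m, hm, α, y, rfl⟩ := h
  exact ⟨m, hm, α, _, ap_res _ _ _⟩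

theorem not_deg_zero (x : Sx W 0) : ¬ Deg x := by
  rintro ⟨m, hm, _⟩
  omega

/-- A map to a simplex of lower dimension factors through a codegeneracy. -/
theorem factor_of_lt {m k : ℕ} (hm : m < k + 1) (α : ⦋k + 1⦌ ⟶ ⦋m⦌) :
    ∃ (b : Fin (k + 1)) (α' : ⦋k⦌ ⟶ ⦋m⦌), α = SimplexCategory.σ b ≫ α' := by
  apply SimplexCategory.eq_σ_comp_of_not_injective
  intro h
  have := Fintype.card_le_of_injective _ h
  simp at this
  omega

theorem Deg.exists_σ {k : ℕ} {x : Sx W (k + 1)} (h : Deg x) :
    ∃ (b : Fin (k + 1)) (y : Sx W k), x = res (SimplexCategory.σ b) y := by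
  obtain ⟨m, hm, α, y, rfl⟩ := h
  obtain ⟨b, α', rfl⟩ := factor_of_lt hm α
  exact ⟨b, res α' y, (res_res _ _ _).symm⟩

theorem deg_σ {k : ℕ} (b : Fin (k + 1)) (y : Sx W k) : Deg (res (SimplexCategory.σ b) y) :=
  ⟨k, Nat.lt_succ_self k, _, y, rfl⟩

/-- An endomorphism of `⦋k⦌` which is not the identity gives degenerate simplices. -/
theorem deg_of_ne_id {k : ℕ} {β : ⦋k⦌ ⟶ ⦋k⦌} (h : β ≠ 𝟙 _) (y : Sx W k) : Deg (res β y) := by
  cases k with
  | zero =>
    exact absurd (Subsingleton.elim (α := (⦋0⦌ : SimplexCategory) ⟶ ⦋0⦌) _ _) h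
  | succ k =>
    have h' : ¬ Function.Injective β.toOrderHom := by
      intro hi
      have : Mono β := SimplexCategory.mono_iff_injective.2 hi
      exact h (SimplexCategory.eq_id_of_mono β)
    obtain ⟨b, θ, rfl⟩ := SimplexCategory.eq_σ_comp_of_not_injective β h'
    rw [← res_res]
    exact deg_σ _ _

theorem deg_res {k m : ℕ} (α : ⦋m⦌ ⟶ ⦋k⦌) {x : Sx W k} (h : Deg x) (hkm : k ≤ m) :
    Deg (res α x) := by
  obtain ⟨l, hl, β, y, rfl⟩ := h
  exact ⟨l, by omega, α ≫ β, y, res_res _ _ _⟩

end res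

section chains

variable (W : SSet.{0})

/-- Chains mod 2. -/
abbrev Ch (k : ℕ) : Type := Sx W k →₀ F2

/-- The chain of a simplex. -/
noncomputable def sg {W : SSet.{0}} {k : ℕ} (x : Sx W k) : Ch W k := Finsupp.single x 1

/-- The boundary. -/
noncomputable def bd (k : ℕ) : Ch W (k + 1) →ₗ[F2] Ch W k :=
  Finsupp.linearCombination F2
    (fun x => ∑ i : Fin (k + 2), sg (res (SimplexCategory.δ i) x))

@[simp] theorem bd_sg (k : ℕ) (x : Sx W (k + 1)) :
    bd W k (sg x) = ∑ i : Fin (k + 2), sg (res (SimplexCategory.δ i) x) := by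
  simp [bd, sg]

/-- Degenerate chains. -/
noncomputable def DD (k : ℕ) : Submodule F2 (Ch W k) :=
  Submodule.span F2 {c | ∃ x : Sx W k, Deg x ∧ c = sg x}

theorem sg_mem_DD {W : SSet.{0}} {k : ℕ} {x : Sx W k} (h : Deg x) : sg x ∈ DD W k :=
  Submodule.subset_span ⟨x, h, rfl⟩

theorem two_smul_ch {M : Type} [AddCommGroup M] [Module F2 M] (c : M) : c + c = 0 := by
  have : (2 : F2) • c = 0 := by
    have : (2 : F2) = 0 := rfl
    rw [this, zero_smul]
  rwa [two_smul] at this

theorem sum_deg {k : ℕ} {M : Type} [AddCommGroup M] [Module F2 M] (φ : Sx W k → M)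
    (hφ : ∀ x, Deg x → φ x = 0) (b : Fin (k + 1)) (y : Sx W k) :
    ∑ i : Fin (k + 2), φ (res (SimplexCategory.δ i) (res (SimplexCategory.σ b) y)) = 0 := by
  classical
  have h1 : ∀ i : Fin (k + 2), i ≠ b.castSucc → i ≠ b.succ →
      φ (res (SimplexCategory.δ i) (res (SimplexCategory.σ b) y)) = 0 := by
    intro i h1 h2
    rw [res_res]
    apply hφ
    apply deg_of_ne_id
    intro h
    have h3 : i = b.castSucc ∨ i = b.succ := by
      by_contra hcon
      push Not at hcon
      -- look at the images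
      have h4 := congrArg (fun f => (f.toOrderHom : Fin (k + 1) → Fin (k + 1)) ) h
      have hsurj : ∀ z : Fin (k + 1), ∃ w : Fin (k + 1), b.predAbove (i.succAbove w) = z := by
        intro z
        refine ⟨z, ?_⟩
        have := congrFun h4 z
        simpa [SimplexCategory.δ, SimplexCategory.σ, SimplexCategory.mkHom] using this
      have hinj : ∀ z : Fin (k + 1), b.predAbove (i.succAbove z) = z := by
        intro z
        have := congrFun h4 z
        simpa [SimplexCategory.δ, SimplexCategory.σ, SimplexCategory.mkHom] using this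
      -- both `b.castSucc` and `b.succ` are values of `i.succAbove`
      obtain ⟨w1, hw1⟩ := Fin.exists_succAbove_eq (Ne.symm h1)
      obtain ⟨w2, hw2⟩ := Fin.exists_succAbove_eq (Ne.symm h2)
      have e1 := hinj w1
      have e2 := hinj w2
      rw [hw1, Fin.predAbove_castSucc_self] at e1
      rw [hw2, Fin.predAbove_succ_self] at e2
      rw [← e1] at hw1
      rw [← e2, hw1] at hw2
      exact absurd (congrArg Fin.val hw2) (by simp)
    rcases h3 with h3 | h3
    · exact h1 h3
    · exact h2 h3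
  have hne : (b.castSucc : Fin (k + 2)) ≠ b.succ := by
    intro h
    exact absurd (congrArg Fin.val h) (by simp)
  have h2 : ∑ i : Fin (k + 2), φ (res (SimplexCategory.δ i) (res (SimplexCategory.σ b) y)) =
      ∑ i ∈ {b.castSucc, b.succ}, φ (res (SimplexCategory.δ i) (res (SimplexCategory.σ b) y)) := by
    symm
    apply Finset.sum_subset (Finset.subset_univ _)
    intro i _ hi
    simp only [Finset.mem_insert, Finset.mem_singleton, not_or] at hi
    exact h1 i hi.1 hi.2
  rw [h2, Finset.sum_pair hne, res_res, res_res, SimplexCategory.δ_comp_σ_self,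
    SimplexCategory.δ_comp_σ_succ]
  exact two_smul_ch _

end chains

section chains

variable (W : SSet.{0})

theorem bd_mem_DD {k : ℕ} {c : Ch W (k + 1)} (hc : c ∈ DD W (k + 1)) : bd W k c ∈ DD W k := by
  unfold DD at hc
  induction hc using Submodule.span_induction with
  | mem c hc =>
    obtain ⟨x, hx, rfl⟩ := hc
    obtain ⟨b, y, rfl⟩ := hx.exists_σ
    rw [bd_sg]
    -- modulo degenerate chains the sum vanishes
    have h := sum_deg (W := W) (M := Ch W k ⧸ DD W k) (fun x => (DD W k).mkQ (sg x))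
      (fun x hx => (Submodule.Quotient.mk_eq_zero _).2 (sg_mem_DD hx)) b y
    rw [← map_sum] at h
    exact (Submodule.Quotient.mk_eq_zero _).1 h
  | zero => simp
  | add x y _ _ h1 h2 => rw [map_add]; exact Submodule.add_mem _ h1 h2
  | smul a x _ h => rw [map_smul]; exact Submodule.smul_mem _ _ h

theorem bd_bd_sg (k : ℕ) (x : Sx W (k + 2)) : bd W k (bd W (k + 1) (sg x)) = 0 := by
  classical
  rw [bd_sg, map_sum]
  simp only [bd_sg]
  rw [Finset.sum_comm]
  have e := (Fintype.sum_prod_type' (fun (j : Fin (k + 2)) (i : Fin (k + 3)) =>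
      (sg (res (SimplexCategory.δ j) (res (SimplexCategory.δ i) x)) : Ch W k))).symm
  refine Eq.trans e ?_
  let g : Fin (k + 2) × Fin (k + 3) → Fin (k + 2) × Fin (k + 3) := fun p =>
    if h : p.1.castSucc < p.2 then (p.2.pred (Fin.ne_zero_of_lt h), p.1.castSucc)
    else (p.2.castPred (by
      intro h'
      apply h
      rw [h']
      exact Fin.castSucc_lt_last _), p.1.succ)
  have hg : ∀ p, (sg (res (SimplexCategory.δ (g p).1) (res (SimplexCategory.δ (g p).2) x)) :
      Ch W k) = sg (res (SimplexCategory.δ p.1) (res (SimplexCategory.δ p.2) x)) := by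
    rintro ⟨a, b⟩
    simp only [g]
    rw [res_res, res_res]
    congr 2
    split_ifs with h
    · obtain ⟨b', rfl⟩ := Fin.exists_succ_eq.2 (Fin.ne_zero_of_lt h)
      simp only [Fin.pred_succ]
      have hab : a ≤ b' := by
        have : a.val < b'.val + 1 := h
        exact Fin.le_def.2 (by omega)
      exact (SimplexCategory.δ_comp_δ hab).symm
    · have hb : b ≠ Fin.last _ := by
        intro h'
        apply h
        rw [h']
        exact Fin.castSucc_lt_last _
      obtain ⟨b', rfl⟩ := Fin.exists_castSucc_eq.2 hb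
      simp only [Fin.castPred_castSucc]
      have hab : b' ≤ a := by
        have : ¬ a.val < b'.val := h
        exact Fin.le_def.2 (by omega)
      exact SimplexCategory.δ_comp_δ hab
  refine Finset.sum_involution (fun p _ => g p) ?_ ?_ ?_ ?_
  · intro p _
    rw [hg p]
    exact two_smul_ch _
  · rintro ⟨a, b⟩ _ _ h
    simp only [g] at h
    split_ifs at h with h'
    · have := congrArg Prod.snd h
      simp only at this
      rw [this] at h'
      exact lt_irrefl _ h'
    · have h1 := congrArg (fun p => (Prod.snd p).val) h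
      have h2 : ¬ a.val < b.val := h'
      simp only [Fin.val_succ] at h1
      omega
  · intro p _
    exact Finset.mem_univ _
  · rintro ⟨a, b⟩ _
    simp only [g]
    by_cases h : a.castSucc < b
    · obtain ⟨b', rfl⟩ := Fin.exists_succ_eq.2 (Fin.ne_zero_of_lt h)
      have h2 : ¬ b'.castSucc < a.castSucc := by
        have : a.val < b'.val + 1 := h
        intro h3
        have : b'.val < a.val := h3
        omega
      simp only [h, dif_pos, Fin.pred_succ, h2, dif_neg, not_false_iff, Fin.castPred_castSucc]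
    · have hb : b ≠ Fin.last _ := by
        intro h'
        apply h
        rw [h']
        exact Fin.castSucc_lt_last _
      obtain ⟨b', rfl⟩ := Fin.exists_castSucc_eq.2 hb
      have h2 : b'.castSucc < a.succ := by
        have : ¬ a.val < b'.val := h
        change b'.val < a.val + 1
        omega
      simp only [h, dif_neg, not_false_iff, Fin.castPred_castSucc, h2, dif_pos, Fin.pred_succ]

theorem ch_induction {k : ℕ} {P : Ch W k → Prop} (h0 : P 0) (hadd : ∀ a b, P a → P b → P (a + b))
    (hs : ∀ x, P (sg x)) (c : Ch W k) : P c := by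
  induction c using Finsupp.induction_linear with
  | zero => exact h0
  | add f g hf hg => exact hadd _ _ hf hg
  | single x a =>
    have : a = 0 ∨ a = 1 := by
      revert a
      decide
    rcases this with rfl | rfl
    · rw [Finsupp.single_zero]
      exact h0
    · exact hs x

theorem bd_bd (k : ℕ) (c : Ch W (k + 2)) : bd W k (bd W (k + 1) c) = 0 := by
  induction c using ch_induction with
  | h0 => simp
  | hadd a b ha hb => simp only [map_add, ha, hb, add_zero]
  | hs x => exact bd_bd_sg W k x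

/-- Relative cycles in degree `k + 1` (cycles modulo degenerate chains). -/
noncomputable def Zt (k : ℕ) : Submodule F2 (Ch W (k + 1)) := (DD W k).comap (bd W k)

/-- Boundaries and degenerate chains in degree `k + 1`. -/
noncomputable def Bt (k : ℕ) : Submodule F2 (Ch W (k + 1)) :=
  DD W (k + 1) ⊔ LinearMap.range (bd W (k + 1))

theorem Bt_le_Zt (k : ℕ) : Bt W k ≤ Zt W k := by
  apply sup_le
  · intro c hc
    exact bd_mem_DD W hc
  · rintro _ ⟨c, rfl⟩
    change bd W k (bd W (k + 1) c) ∈ DD W k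
    rw [bd_bd]
    exact Submodule.zero_mem _

/-- Normalised cocycles in degree `k + 1`. -/
structure Coc (k : ℕ) where
  /-- the values -/
  v : Sx W (k + 1) → F2
  /-- vanishing on degenerate simplices -/
  deg : ∀ x, Deg x → v x = 0
  /-- the cocycle condition -/
  coc : ∀ x : Sx W (k + 2), ∑ i : Fin (k + 3), v (res (SimplexCategory.δ i) x) = 0

/-- The functional of a cochain. -/
noncomputable def ev {W : SSet.{0}} {k : ℕ} (φ : Sx W k → F2) : Ch W k →ₗ[F2] F2 :=
  Finsupp.linearCombination F2 φ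

@[simp] theorem ev_sg {W : SSet.{0}} {k : ℕ} (φ : Sx W k → F2) (x : Sx W k) :
    ev φ (sg x) = φ x := by
  simp [ev, sg]

variable {W}

theorem ev_Bt {k : ℕ} (φ : Coc W k) {c : Ch W (k + 1)} (hc : c ∈ Bt W k) : ev φ.v c = 0 := by
  have : Bt W k ≤ LinearMap.ker (ev φ.v) := by
    apply sup_le
    · unfold DD
      rw [Submodule.span_le]
      rintro _ ⟨x, hx, rfl⟩
      simp [φ.deg x hx]
    · rintro _ ⟨c, rfl⟩
      rw [LinearMap.mem_ker]
      induction c using ch_induction with
      | h0 => simp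
      | hadd a b ha hb => simp only [map_add, ha, hb, add_zero]
      | hs x => simp [φ.coc x]
  exact this hc

/-- A cocycle vanishing on the relative cycles is a coboundary. -/
theorem exists_coboundary {k : ℕ} (φ : Sx W (k + 1) → F2)
    (h : ∀ z ∈ Zt W k, ev φ z = 0) :
    ∃ ψ : Sx W k → F2, (∀ y, Deg y → ψ y = 0) ∧
      ∀ x, φ x = ∑ i : Fin (k + 2), ψ (res (SimplexCategory.δ i) x) := by
  let f : Ch W (k + 1) →ₗ[F2] (Ch W k ⧸ DD W k) := (DD W k).mkQ ∘ₗ bd W k
  have hker : LinearMap.ker f = Zt W k := by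
    ext c
    simp [f, Zt]
  have h1 : (ev φ : Module.Dual F2 (Ch W (k + 1))) ∈ (LinearMap.ker f).dualAnnihilator := by
    rw [Submodule.mem_dualAnnihilator, hker]
    exact h
  rw [← LinearMap.range_dualMap_eq_dualAnnihilator_ker] at h1
  obtain ⟨g, hg⟩ := h1
  refine ⟨fun y => g ((DD W k).mkQ (sg y)), ?_, ?_⟩
  · intro y hy
    have : (DD W k).mkQ (sg y) = 0 := (Submodule.Quotient.mk_eq_zero _).2 (sg_mem_DD hy)
    change g ((DD W k).mkQ (sg y)) = 0
    rw [this, map_zero]
  · intro x
    have h2 := congrArg (fun l => l (sg x)) hg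
    simp only [LinearMap.dualMap_apply, ev_sg] at h2
    rw [← h2]
    simp only [f, LinearMap.comp_apply, bd_sg, map_sum]

/-- Functionals on the homology come from cocycles. -/
theorem exists_cocycle {k : ℕ} {U : Type} [AddCommGroup U] [Module F2 U]
    (π : Zt W k →ₗ[F2] U) (hπ : ∀ z : Zt W k, z.1 ∈ Bt W k → π z = 0) (μ : Module.Dual F2 U) :
    ∃ φ : Coc W k, ∀ z : Zt W k, ev φ.v z.1 = μ (π z) := by
  obtain ⟨g, hg⟩ := LinearMap.exists_extend (μ ∘ₗ π)
  have hg' : ∀ z : Zt W k, g z.1 = μ (π z) := fun z => congrArg (fun l => l z) hg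
  have key : ∀ c, ev (fun x => g (sg x)) c = g c := by
    intro c
    induction c using ch_induction with
    | h0 => simp
    | hadd a b ha hb => simp only [map_add, ha, hb]
    | hs x => simp
  refine ⟨⟨fun x => g (sg x), ?_, ?_⟩, ?_⟩
  · intro x hx
    have h1 : sg x ∈ Bt W k := Submodule.mem_sup_left (sg_mem_DD hx)
    have h2 := hg' ⟨sg x, Bt_le_Zt W k h1⟩
    rw [hπ _ h1, map_zero] at h2
    exact h2
  · intro x
    have h1 : bd W (k + 1) (sg x) ∈ Bt W k := Submodule.mem_sup_right ⟨_, rfl⟩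
    have h2 := hg' ⟨_, Bt_le_Zt W k h1⟩
    rw [hπ _ h1, map_zero] at h2
    simpa using h2
  · intro z
    change ev (fun x => g (sg x)) z.1 = _
    rw [key, hg']

end chains

section push

variable {V W : SSet.{0}} (f : V ⟶ W)

/-- The chain map induced by a simplicial map. -/
noncomputable def pf (k : ℕ) : Ch V k →ₗ[F2] Ch W k :=
  Finsupp.lmapDomain F2 F2 (ap f)

@[simp] theorem pf_sg (k : ℕ) (x : Sx V k) : pf f k (sg x) = sg (ap f x) := by
  simp [pf, sg]

theorem pf_bd (k : ℕ) (c : Ch V (k + 1)) : pf f k (bd V k c) = bd W k (pf f (k + 1) c) := by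
  induction c using ch_induction with
  | h0 => simp
  | hadd a b ha hb => simp only [map_add, ha, hb]
  | hs x => simp [ap_res]

theorem pf_DD {k : ℕ} {c : Ch V k} (hc : c ∈ DD V k) : pf f k c ∈ DD W k := by
  unfold DD at hc
  induction hc using Submodule.span_induction with
  | mem c hc =>
    obtain ⟨x, hx, rfl⟩ := hc
    rw [pf_sg]
    exact sg_mem_DD (hx.ap f)
  | zero => simp
  | add x y _ _ h1 h2 => rw [map_add]; exact Submodule.add_mem _ h1 h2
  | smul a x _ h => rw [map_smul]; exact Submodule.smul_mem _ _ h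

theorem pf_Zt {k : ℕ} {c : Ch V (k + 1)} (hc : c ∈ Zt V k) : pf f (k + 1) c ∈ Zt W k := by
  change bd W k _ ∈ DD W k
  rw [← pf_bd]
  exact pf_DD f hc

theorem pf_Bt {k : ℕ} {c : Ch V (k + 1)} (hc : c ∈ Bt V k) : pf f (k + 1) c ∈ Bt W k := by
  obtain ⟨a, ha, b, hb, rfl⟩ := Submodule.mem_sup.1 hc
  obtain ⟨d, rfl⟩ := hb
  rw [map_add, pf_bd]
  exact Submodule.add_mem _ (Submodule.mem_sup_left (pf_DD f ha))
    (Submodule.mem_sup_right ⟨_, rfl⟩)

/-- The map on relative cycles. -/
noncomputable def pz (k : ℕ) : Zt V k →ₗ[F2] Zt W k :=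
  (pf f (k + 1)).restrict (fun _ hc => pf_Zt f hc)

@[simp] theorem pz_val (k : ℕ) (z : Zt V k) : (pz f k z).1 = pf f (k + 1) z.1 := rfl

/-- Pull-back of a cocycle. -/
def Coc.pull {k : ℕ} (φ : Coc W k) : Coc V k where
  v := fun x => φ.v (ap f x)
  deg := fun x hx => φ.deg _ (hx.ap f)
  coc := by
    intro x
    have := φ.coc (ap f x)
    simpa only [ap_res] using this

theorem ev_pull {k : ℕ} (φ : Coc W k) (c : Ch V (k + 1)) :
    ev (φ.pull f).v c = ev φ.v (pf f (k + 1) c) := by
  induction c using ch_induction with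
  | h0 => simp
  | hadd a b ha hb => simp only [map_add, ha, hb]
  | hs x => simp [Coc.pull]

end push

end Pool.Agent.W2helper51.HSC
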