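import Mathlib
import Pool.Agent.W2helper51.HSC.Chains

set_option autoImplicit false

/-!
# The simplicial set of normalised cocycles

`KK p` is the simplicial set whose `m`-simplices are the normalised `(p+1)`-cocycles with
coefficients in `ZMod 2` of the standard `m`-simplex; it is the usual model of the
Eilenberg–Mac Lane space `K(ZMod 2, p+1)`.
-/

open CategoryTheory Opposite Simplicial MonoidalCategory CartesianMonoidalCategory

namespace Pool.Agent.W2helper51.HSC

/-- Normalised `(p+1)`-cocycles of the simplex `X`. -/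
structure KS (p : ℕ) (X : SimplexCategory) : Type where
  /-- the values on the simplices of dimension `p + 1` -/
  v : (⦋p + 1⦌ ⟶ X) → F2
  /-- the degenerate simplices have value `0` -/
  deg : ∀ (k : ℕ), k < p + 1 → ∀ (β : ⦋p + 1⦌ ⟶ ⦋k⦌) (γ : ⦋k⦌ ⟶ X), v (β ≫ γ) = 0
  /-- the cocycle condition -/
  coc : ∀ γ : ⦋p + 2⦌ ⟶ X, ∑ i : Fin (p + 3), v (SimplexCategory.δ i ≫ γ) = 0

theorem KS.ext' {p : ℕ} {X : SimplexCategory} {a b : KS p X} (h : ∀ γ, a.v γ = b.v γ) :
    a = b := by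
  obtain ⟨v, _, _⟩ := a
  obtain ⟨w, _, _⟩ := b
  have : v = w := funext h
  subst this
  rfl

/-- Pull-back of cocycles of simplices. -/
def KS.map {p : ℕ} {X Y : SimplexCategory} (f : Y ⟶ X) (c : KS p X) : KS p Y where
  v := fun γ => c.v (γ ≫ f)
  deg := by
    intro k hk β γ
    rw [Category.assoc]
    exact c.deg k hk β (γ ≫ f)
  coc := by
    intro γ
    have := c.coc (γ ≫ f)
    simpa only [Category.assoc] using this

/-- The simplicial set of normalised `(p+1)`-cocycles. -/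
def KK (p : ℕ) : SSet.{0} where
  obj X := KS p X.unop
  map f := ↾fun c => KS.map f.unop c
  map_id X := by
    ext c
    apply KS.ext'
    intro γ
    change c.v (γ ≫ 𝟙 _) = c.v γ
    rw [Category.comp_id]
  map_comp f g := by
    ext c
    apply KS.ext'
    intro γ
    change c.v (γ ≫ g.unop ≫ f.unop) = c.v ((γ ≫ g.unop) ≫ f.unop)
    rw [Category.assoc]

/-- The values of a simplex of `KK p`. -/
def kv {p k : ℕ} (c : Sx (KK p) k) : (⦋p + 1⦌ ⟶ ⦋k⦌) → F2 := KS.v (X := ⦋k⦌) c

theorem kv_ext {p k : ℕ} {a b : Sx (KK p) k} (h : ∀ γ, kv a γ = kv b γ) : a = b :=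
  KS.ext' h

section classify

variable {W V : SSet.{0}} {p : ℕ}

theorem kv_res {m k : ℕ} (α : ⦋m⦌ ⟶ ⦋k⦌) (c : Sx (KK p) k) (γ : ⦋p + 1⦌ ⟶ ⦋m⦌) :
    kv (res α c) γ = kv c (γ ≫ α) := rfl

/-- The value of a map to `KK p` at a simplex, evaluated at a face. -/
theorem kv_ap (f : W ⟶ KK p) {k : ℕ} (x : Sx W k) (γ : ⦋p + 1⦌ ⟶ ⦋k⦌) :
    kv (ap f x) γ = kv (ap f (res γ x)) (𝟙 _) := by
  rw [ap_res, kv_res, Category.id_comp]

/-- The cocycle of a map to `KK p`. -/
def toCoc (f : W ⟶ KK p) : Coc W p where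
  v := fun x => kv (ap f x) (𝟙 _)
  deg := by
    rintro x ⟨m, hm, α, y, rfl⟩
    change kv (ap f (res α y)) (𝟙 _) = 0
    rw [← kv_ap]
    have := KS.deg (X := ⦋m⦌) (ap f y : KS p ⦋m⦌) m hm α (𝟙 _)
    rwa [Category.comp_id] at this
  coc := by
    intro x
    have := KS.coc (X := ⦋p + 2⦌) (ap f x : KS p ⦋p + 2⦌) (𝟙 _)
    simp only [Category.comp_id] at this
    refine Eq.trans (Finset.sum_congr rfl (fun i _ => ?_)) this
    exact (kv_ap f x _).symm

/-- The map to `KK p` of a cocycle. -/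
def ofCoc (φ : Coc W p) : W ⟶ KK p where
  app X := ↾fun x => (
    { v := fun γ => φ.v (W.map γ.op x)
      deg := by
        intro k hk β γ
        have : W.map (β ≫ γ).op x = W.map β.op (W.map γ.op x) := by simp
        rw [this]
        exact φ.deg _ ⟨k, hk, β, _, rfl⟩
      coc := by
        intro γ
        have := φ.coc (W.map γ.op x)
        refine Eq.trans (Finset.sum_congr rfl (fun i _ => ?_)) this
        simp [res] } : KS p X.unop)
  naturality X Y f := by
    ext x
    apply KS.ext'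
    intro γ
    change φ.v (W.map γ.op (W.map f x)) = φ.v (W.map (γ ≫ f.unop).op x)
    simp

theorem toCoc_ofCoc (φ : Coc W p) (x : Sx W (p + 1)) : (toCoc (ofCoc φ)).v x = φ.v x := by
  change φ.v (W.map (𝟙 _) x) = φ.v x
  simp

theorem toCoc_inj {f g : W ⟶ KK p} (h : ∀ x, (toCoc f).v x = (toCoc g).v x) : f = g := by
  ext X x
  obtain ⟨⟨n⟩⟩ := X
  apply KS.ext'
  intro γ
  have h1 := kv_ap f (k := n) x γ
  have h2 := kv_ap g (k := n) x γ
  exact h1.trans ((h _).trans h2.symm)

theorem toCoc_comp (g : V ⟶ W) (f : W ⟶ KK p) (x : Sx V (p + 1)) :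
    (toCoc (g ≫ f)).v x = ((toCoc f).pull g).v x := rfl

end classify

end Pool.Agent.W2helper51.HSC
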