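import Mathlib
import Pool.Agent.W2helper51.HSC.KComplex

set_option autoImplicit false

/-!
# `KK p` is a Kan complex

Moore's algorithm.
-/

open CategoryTheory Opposite Simplicial MonoidalCategory CartesianMonoidalCategory

namespace Pool.Agent.W2helper51.HSC

section add

variable {p k : ℕ}

/-- The sum of two simplices of `KK p`. -/
def kadd (a b : Sx (KK p) k) : Sx (KK p) k :=
  ({ v := fun γ => kv a γ + kv b γ
     deg := by
      intro l hl β γ
      have h1 := KS.deg (X := ⦋k⦌) a l hl β γ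
      have h2 := KS.deg (X := ⦋k⦌) b l hl β γ
      change KS.v (X := ⦋k⦌) a _ + KS.v (X := ⦋k⦌) b _ = 0
      rw [h1, h2, add_zero]
     coc := by
      intro γ
      have h1 := KS.coc (X := ⦋k⦌) a γ
      have h2 := KS.coc (X := ⦋k⦌) b γ
      change ∑ i : Fin (p + 3), (KS.v (X := ⦋k⦌) a _ + KS.v (X := ⦋k⦌) b _) = 0
      rw [Finset.sum_add_distrib, h1, h2, add_zero] } : KS p ⦋k⦌)

/-- The zero simplex of `KK p`. -/
def kzero (p k : ℕ) : Sx (KK p) k :=
  ({ v := fun _ => 0
     deg := by intro l hl β γ; rfl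
     coc := by intro γ; simp } : KS p ⦋k⦌)

theorem kv_kadd (a b : Sx (KK p) k) (γ : ⦋p + 1⦌ ⟶ ⦋k⦌) : kv (kadd a b) γ = kv a γ + kv b γ := rfl

theorem kv_kzero (γ : ⦋p + 1⦌ ⟶ ⦋k⦌) : kv (kzero p k) γ = 0 := rfl

theorem kadd_self (a : Sx (KK p) k) : kadd a a = kzero p k := by
  apply kv_ext
  intro γ
  rw [kv_kadd, kv_kzero]
  exact two_smul_ch _

theorem kadd_kzero (a : Sx (KK p) k) : kadd a (kzero p k) = a := by
  apply kv_ext
  intro γ
  rw [kv_kadd, kv_kzero, add_zero]

theorem kadd_cancel (a b : Sx (KK p) k) : kadd a (kadd b a) = b := by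
  apply kv_ext
  intro γ
  rw [kv_kadd, kv_kadd]
  have h : ∀ s t : F2, s + (t + s) = t := by decide
  exact h _ _

theorem res_kadd {m : ℕ} (α : ⦋m⦌ ⟶ ⦋k⦌) (a b : Sx (KK p) k) :
    res α (kadd a b) = kadd (res α a) (res α b) := rfl

theorem res_kzero {m : ℕ} (α : ⦋m⦌ ⟶ ⦋k⦌) : res α (kzero p k) = kzero p m := rfl

end add

section ids

variable {n : ℕ}

theorem δσ_lt (j : Fin (n + 3)) (b : Fin (n + 2)) (h : j.val < b.val) :
    ∃ (b' : Fin (n + 1)) (j' : Fin (n + 2)), b'.val + 1 = b.val ∧ j'.val = j.val ∧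
      SimplexCategory.δ j ≫ SimplexCategory.σ b = SimplexCategory.σ b' ≫ SimplexCategory.δ j' := by
  have hb : b.val ≠ 0 := by omega
  refine ⟨⟨b.val - 1, by omega⟩, ⟨j.val, by omega⟩, by simp; omega, rfl, ?_⟩
  have := SimplexCategory.δ_comp_σ_of_le (n := n) (i := ⟨j.val, by omega⟩)
    (j := ⟨b.val - 1, by omega⟩) (by
      rw [Fin.le_def]
      simp
      omega)
  rw [← this]
  congr 2
  apply Fin.ext
  simp
  omega

theorem δσ_gt (j : Fin (n + 3)) (b : Fin (n + 2)) (h : b.val + 1 < j.val) :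
    ∃ (b' : Fin (n + 1)) (j' : Fin (n + 2)), b'.val = b.val ∧ j'.val + 1 = j.val ∧
      SimplexCategory.δ j ≫ SimplexCategory.σ b = SimplexCategory.σ b' ≫ SimplexCategory.δ j' := by
  refine ⟨⟨b.val, by omega⟩, ⟨j.val - 1, by omega⟩, rfl, by simp; omega, ?_⟩
  have := SimplexCategory.δ_comp_σ_of_gt (n := n) (i := ⟨j.val - 1, by omega⟩)
    (j := ⟨b.val, by omega⟩) (by
      rw [Fin.lt_def]
      simp
      omega)
  rw [← this]
  congr 2
  apply Fin.ext
  simp
  omega

theorem δδ_lt (j k : Fin (n + 3)) (h : j.val < k.val) (k' j' : Fin (n + 2))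
    (hk : k'.val + 1 = k.val) (hj : j'.val = j.val) :
    SimplexCategory.δ k' ≫ SimplexCategory.δ j = SimplexCategory.δ j' ≫ SimplexCategory.δ k := by
  have := SimplexCategory.δ_comp_δ (n := n) (i := j') (j := k') (by
    rw [Fin.le_def]
    omega)
  have e1 : k'.succ = k := by
    apply Fin.ext
    simp
    omega
  have e2 : j'.castSucc = j := by
    apply Fin.ext
    simp
    omega
  rw [e1, e2] at this
  exact this.symm

theorem δσ_self (j : Fin (n + 3)) (b : Fin (n + 2)) (h : j.val = b.val) :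
    SimplexCategory.δ j ≫ SimplexCategory.σ b = 𝟙 _ := by
  have e : j = b.castSucc := Fin.ext h
  rw [e]
  exact SimplexCategory.δ_comp_σ_self

theorem δσ_succ (j : Fin (n + 3)) (b : Fin (n + 2)) (h : j.val = b.val + 1) :
    SimplexCategory.δ j ≫ SimplexCategory.σ b = 𝟙 _ := by
  have e : j = b.succ := Fin.ext h
  rw [e]
  exact SimplexCategory.δ_comp_σ_succ

end ids

section moore

variable {p n : ℕ} (i : Fin (n + 3)) (x : (j : Fin (n + 3)) → j ≠ i → Sx (KK p) (n + 1))
  (hx : ∀ (j k : Fin (n + 3)) (hj : j ≠ i) (hk : k ≠ i), j.val < k.val →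
    ∀ (k' j' : Fin (n + 2)), k'.val + 1 = k.val → j'.val = j.val →
      res (SimplexCategory.δ k') (x j hj) = res (SimplexCategory.δ j') (x k hk))

include hx

theorem moore_step (R : Fin (n + 3)) (hR : R ≠ i) (b : Fin (n + 2))
    (hb : R.val = b.val ∨ R.val = b.val + 1) (w : Sx (KK p) (n + 2)) (S : Fin (n + 3) → Prop)
    (hS : ∀ j, S j → j.val < b.val ∨ b.val + 1 < j.val)
    (hS' : ∀ j, S j → j ≠ R)
    (hw : ∀ j (hj : j ≠ i), S j → res (SimplexCategory.δ j) w = x j hj) :
    ∃ w' : Sx (KK p) (n + 2), (∀ j (hj : j ≠ i), S j → res (SimplexCategory.δ j) w' = x j hj) ∧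
      res (SimplexCategory.δ R) w' = x R hR := by
  refine ⟨kadd w (res (SimplexCategory.σ b) (kadd (x R hR) (res (SimplexCategory.δ R) w))),
    ?_, ?_⟩
  · intro j hj hSj
    rw [res_kadd, res_res, hw j hj hSj]
    have hne := hS' j hSj
    rcases hS j hSj with h | h
    · obtain ⟨b', j', h1, h2, h3⟩ := δσ_lt j b h
      rw [h3, ← res_res, res_kadd]
      have hjR : j.val < R.val := by omega
      have e1 := hx j R hj hR hjR ⟨R.val - 1, by omega⟩ j' (by simp; omega) h2
      have e2 := δδ_lt j R hjR ⟨R.val - 1, by omega⟩ j' (by simp; omega) h2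
      rw [res_res, ← e2, ← res_res, hw j hj hSj, ← e1, kadd_self, res_kzero, kadd_kzero]
    · obtain ⟨b', j', h1, h2, h3⟩ := δσ_gt j b h
      rw [h3, ← res_res, res_kadd]
      have hjR : R.val < j.val := by omega
      have e1 := hx R j hR hj hjR j' ⟨R.val, by omega⟩ h2 rfl
      have e2 := δδ_lt R j hjR j' ⟨R.val, by omega⟩ h2 rfl
      rw [res_res, e2, ← res_res, hw j hj hSj, ← e1, kadd_self, res_kzero, kadd_kzero]
  · rw [res_kadd, res_res]
    have : SimplexCategory.δ R ≫ SimplexCategory.σ b = 𝟙 _ := by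
      rcases hb with h | h
      · exact δσ_self R b h
      · exact δσ_succ R b h
    rw [this, res_id, kadd_cancel]

theorem moore_low (r : ℕ) (hr : r ≤ i.val) :
    ∃ w : Sx (KK p) (n + 2), ∀ j (hj : j ≠ i), j.val < r → res (SimplexCategory.δ j) w = x j hj := by
  induction r with
  | zero => exact ⟨kzero p _, fun j hj h => absurd h (Nat.not_lt_zero _)⟩
  | succ r ih =>
    obtain ⟨w, hw⟩ := ih (by omega)
    have hi := i.2
    have hR : r < n + 3 := by omega
    obtain ⟨w', h1, h2⟩ := moore_step i x hx ⟨r, hR⟩ (by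
      intro h
      have := congrArg Fin.val h
      simp at this
      omega) ⟨r, by omega⟩ (Or.inl rfl) w (fun j => j.val < r) (by
        intro j hj
        exact Or.inl hj) (by
        intro j hj h
        rw [h] at hj
        simp at hj) hw
    refine ⟨w', fun j hj hjr => ?_⟩
    rcases Nat.lt_or_ge j.val r with h | h
    · exact h1 j hj h
    · have : j = ⟨r, hR⟩ := Fin.ext (by simp; omega)
      subst this
      exact h2

theorem moore_high (s : ℕ) (hs : i.val + s ≤ n + 2) :
    ∃ w : Sx (KK p) (n + 2), ∀ j (hj : j ≠ i), (j.val < i.val ∨ n + 2 < j.val + s) →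
      res (SimplexCategory.δ j) w = x j hj := by
  induction s with
  | zero =>
    obtain ⟨w, hw⟩ := moore_low i x hx i.val le_rfl
    refine ⟨w, fun j hj h => hw j hj ?_⟩
    have := j.2
    omega
  | succ s ih =>
    obtain ⟨w, hw⟩ := ih (by omega)
    have hi := i.2
    have hR : n + 2 - s < n + 3 := by omega
    obtain ⟨w', h1, h2⟩ := moore_step i x hx ⟨n + 2 - s, hR⟩ (by
      intro h
      have := congrArg Fin.val h
      simp at this
      omega) ⟨n + 1 - s, by omega⟩ (Or.inr (by simp; omega)) w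
        (fun j => j.val < i.val ∨ n + 2 < j.val + s) (by
        intro j hj
        simp
        omega) (by
        intro j hj h
        rw [h] at hj
        simp at hj
        omega) hw
    refine ⟨w', fun j hj hjr => ?_⟩
    by_cases h : j.val < i.val ∨ n + 2 < j.val + s
    · exact h1 j hj h
    · have : j = ⟨n + 2 - s, hR⟩ := Fin.ext (by simp; omega)
      subst this
      exact h2

theorem moore : ∃ w : Sx (KK p) (n + 2), ∀ j (hj : j ≠ i), res (SimplexCategory.δ j) w = x j hj := by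
  have hi := i.2
  obtain ⟨w, hw⟩ := moore_high i x hx (n + 2 - i.val) (by omega)
  refine ⟨w, fun j hj => hw j hj ?_⟩
  have : j.val ≠ i.val := fun h => hj (Fin.ext h)
  omega

end moore

theorem yo_res {Z : SSet.{0}} {m k : ℕ} (α : ⦋m⦌ ⟶ ⦋k⦌) (f : (Δ[k] : SSet.{0}) ⟶ Z) :
    SSet.yonedaEquiv (SSet.stdSimplex.map α ≫ f) = res α (SSet.yonedaEquiv f) := by
  have h := NatTrans.naturality_apply f α.op (SSet.stdSimplex.objEquiv.symm (𝟙 ⦋k⦌))
  refine Eq.trans ?_ h
  change f.app _ _ = f.app _ _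
  congr 1

theorem KK_kan (p : ℕ) : SSet.KanComplex (KK p) := by
  rw [SSet.KanComplex.iff]
  intro n i f hf
  cases n with
  | zero =>
    -- a single face
    obtain ⟨j, hj⟩ : ∃ j : Fin 2, j ≠ i := by
      fin_cases i
      · exact ⟨1, by decide⟩
      · exact ⟨0, by decide⟩
    refine ⟨SSet.stdSimplex.map (SimplexCategory.σ (0 : Fin 1)) ≫ f j hj, ?_⟩
    intro j' hj'
    have : j' = j := by
      have h1 : j'.val ≠ i.val := fun h => hj' (Fin.ext h)
      have h2 : j.val ≠ i.val := fun h => hj (Fin.ext h)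
      apply Fin.ext
      omega
    subst this
    have e : (SimplexCategory.δ j' : (⦋0⦌ : SimplexCategory) ⟶ ⦋1⦌) ≫ SimplexCategory.σ 0 = 𝟙 _ :=
      Subsingleton.elim (α := (⦋0⦌ : SimplexCategory) ⟶ ⦋0⦌) _ _
    apply SSet.yonedaEquiv.injective
    refine (yo_res (SimplexCategory.δ j') (SSet.stdSimplex.map (SimplexCategory.σ (0 : Fin 1)) ≫
      f j' hj)).trans ?_
    rw [yo_res, res_res, e, res_id]
  | succ n =>
    let x : (j : Fin (n + 3)) → j ≠ i → Sx (KK p) (n + 1) := fun j hj => SSet.yonedaEquiv (f j hj)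
    have hx : ∀ (j k : Fin (n + 3)) (hj : j ≠ i) (hk : k ≠ i), j.val < k.val →
        ∀ (k' j' : Fin (n + 2)), k'.val + 1 = k.val → j'.val = j.val →
        res (SimplexCategory.δ k') (x j hj) = res (SimplexCategory.δ j') (x k hk) := by
      intro j k hj hk hjk k' j' hk' hj'
      have h := hf j k hj hk hjk
      have e1 : k.pred (Fin.ne_zero_of_lt hjk) = k' := by
        apply Fin.ext
        simp
        omega
      have e2 : j.castPred (Fin.ne_last_of_lt hjk) = j' := by
        apply Fin.ext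
        simp
        omega
      rw [e1, e2] at h
      have h2 := congrArg SSet.yonedaEquiv h
      exact (yo_res (SimplexCategory.δ k') (f j hj)).symm.trans
        (h2.trans (yo_res (SimplexCategory.δ j') (f k hk)))
    obtain ⟨w, hw⟩ := moore i x hx
    refine ⟨SSet.yonedaEquiv.symm w, fun j hj => ?_⟩
    apply SSet.yonedaEquiv.injective
    have h1 := yo_res (SimplexCategory.δ j) (SSet.yonedaEquiv.symm w)
    rw [Equiv.apply_symm_apply] at h1
    exact h1.trans (hw j hj)

end Pool.Agent.W2helper51.HSC
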