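import Mathlib
import Pool.Agent.W2helper51.HSC.Chains

set_option autoImplicit false

/-!
# Spanning trees and walks

For a connected simplicial set `W` we choose a set of `(p+1)`-simplices (the tree) whose
boundaries form a basis of the boundaries, and we realise every homology class by a walk.
-/

open CategoryTheory

namespace Pool.Agent.W2helper51.HSC

section

variable {W : SSet.{0}} {p : ℕ}

/-- Walks through `(p+1)`-simplices, with their total chain. -/
inductive Chn : Sx W p → Sx W p → Ch W (p + 1) → Prop where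
  | one (ρ : Sx W (p + 1)) (i o : Fin (p + 2)) (h : i ≠ o) :
      Chn (res (SimplexCategory.δ i) ρ) (res (SimplexCategory.δ o) ρ) (sg ρ)
  | cons (ρ : Sx W (p + 1)) (i o : Fin (p + 2)) (h : i ≠ o) {κ : Sx W p} {x : Ch W (p + 1)}
      (hx : Chn (res (SimplexCategory.δ o) ρ) κ x) :
      Chn (res (SimplexCategory.δ i) ρ) κ (sg ρ + x)

end

open Opposite Simplicial

/-- Connectedness: the set of vertices is nonempty, and a predicate on the vertices which is
invariant along the edges is constant. -/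
def Conn (W : SSet.{0}) : Prop :=
  Nonempty (Sx W 0) ∧ ∀ q : Sx W 0 → Prop,
    (∀ e : Sx W 1, q (res (SimplexCategory.δ 0) e) ↔ q (res (SimplexCategory.δ 1) e)) →
      ∀ a b, q a → q b

section tree

variable (W : SSet.{0}) (p : ℕ)

/-- A spanning tree in degree `p + 1`. -/
structure Tree where
  /-- the index set -/
  T : Type
  /-- the simplices -/
  tr : T → Sx W (p + 1)
  /-- independence -/
  li : ∀ c : T →₀ F2, bd W p (Finsupp.linearCombination F2 (fun t => sg (tr t)) c) ∈ DD W p →
    c = 0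
  /-- every boundary comes from the tree -/
  sp : ∀ x : Ch W (p + 1), ∃ c : T →₀ F2,
    bd W p (x + Finsupp.linearCombination F2 (fun t => sg (tr t)) c) ∈ DD W p

theorem exists_tree : Nonempty (Tree W p) := by
  classical
  let f : Ch W (p + 1) →ₗ[F2] (Ch W p ⧸ DD W p) := (DD W p).mkQ ∘ₗ bd W p
  obtain ⟨b, hb, hspan, hli⟩ := exists_linearIndependent F2 (Set.range (fun x => f (sg x)))
  have hch : ∀ v : b, ∃ x : Sx W (p + 1), f (sg x) = v.1 := fun v => hb v.2
  choose tr htr using hch
  have hf : ∀ c : b →₀ F2, f (Finsupp.linearCombination F2 (fun t => sg (tr t)) c) =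
      Finsupp.linearCombination F2 (Subtype.val : b → _) c := by
    intro c
    rw [Finsupp.linearCombination_apply, Finsupp.linearCombination_apply, map_finsuppSum]
    refine Finsupp.sum_congr (fun t _ => ?_)
    rw [map_smul, htr]
  refine ⟨⟨b, tr, ?_, ?_⟩⟩
  · intro c hc
    have h1 : f (Finsupp.linearCombination F2 (fun t => sg (tr t)) c) = 0 :=
      (Submodule.Quotient.mk_eq_zero _).2 hc
    rw [hf] at h1
    exact linearIndependent_iff.1 hli c h1
  · intro x
    have h1 : f x ∈ Submodule.span F2 b := by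
      rw [hspan]
      induction x using ch_induction with
      | h0 => rw [map_zero]; exact Submodule.zero_mem _
      | hadd a b ha hb => rw [map_add]; exact Submodule.add_mem _ ha hb
      | hs x => exact Submodule.subset_span ⟨x, rfl⟩
    have h2 : f x ∈ Submodule.span F2 (Set.range (Subtype.val : b → _)) := by
      rwa [Subtype.range_coe]
    obtain ⟨c, hc⟩ := Finsupp.mem_span_range_iff_exists_finsupp.1 h2
    refine ⟨c, ?_⟩
    have h3 : f (x + Finsupp.linearCombination F2 (fun t => sg (tr t)) c) = 0 := by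
      rw [map_add, hf, Finsupp.linearCombination_apply, hc]
      exact two_smul_ch _
    exact (Submodule.Quotient.mk_eq_zero _).1 h3

end tree

section cls

variable {W : SSet.{0}} {p : ℕ} (t : Tree W p) {U : Type} [AddCommGroup U] [Module F2 U]
  (π : Zt W p →ₗ[F2] U)

/-- The chains on the tree. -/
noncomputable def Tree.L : (t.T →₀ F2) →ₗ[F2] Ch W (p + 1) :=
  Finsupp.linearCombination F2 (fun s => sg (t.tr s))

/-- `u` is the class of the chain `x` closed up by the tree. -/
def Cl (x : Ch W (p + 1)) (u : U) : Prop :=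
  ∃ (c : t.T →₀ F2) (h : x + t.L c ∈ Zt W p), π ⟨x + t.L c, h⟩ = u

variable {t π}

theorem Cl.unique {x : Ch W (p + 1)} {u v : U} (hu : Cl t π x u) (hv : Cl t π x v) : u = v := by
  obtain ⟨c, h, rfl⟩ := hu
  obtain ⟨c', h', rfl⟩ := hv
  have h1 : t.L (c + c') ∈ Zt W p := by
    have := Submodule.add_mem _ h h'
    have e : x + t.L c + (x + t.L c') = t.L (c + c') := by
      rw [map_add]
      have h2 : x + x = 0 := two_smul_ch x
      calc x + t.L c + (x + t.L c') = (x + x) + (t.L c + t.L c') := by abel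
        _ = t.L c + t.L c' := by rw [h2, zero_add]
    rwa [e] at this
  have h2 : c + c' = 0 := t.li _ h1
  have h3 : c = c' := by
    have h4 : c' + c' = 0 := two_smul_ch c'
    calc c = c + (c' + c') := by rw [h4, add_zero]
      _ = (c + c') + c' := by abel
      _ = c' := by rw [h2, zero_add]
  subst h3
  rfl

theorem Cl.add {x y : Ch W (p + 1)} {u v : U} (hu : Cl t π x u) (hv : Cl t π y v) :
    Cl t π (x + y) (u + v) := by
  obtain ⟨c, h, rfl⟩ := hu
  obtain ⟨c', h', rfl⟩ := hv
  have e : x + y + t.L (c + c') = (x + t.L c) + (y + t.L c') := by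
    rw [map_add]
    abel
  refine ⟨c + c', by rw [e]; exact Submodule.add_mem _ h h', ?_⟩
  rw [← map_add]
  congr 1
  exact Subtype.ext e

theorem Cl.exists (x : Ch W (p + 1)) : ∃ u, Cl t π x u := by
  obtain ⟨c, hc⟩ := t.sp x
  exact ⟨_, c, hc, rfl⟩

theorem cl_zt (z : Zt W p) : Cl t π z.1 (π z) :=
  ⟨0, by rw [map_zero, add_zero]; exact z.2, by
    congr 1
    apply Subtype.ext
    change z.1 + t.L 0 = z.1
    rw [map_zero, add_zero]⟩

theorem cl_tree (s : t.T) : Cl t π (sg (t.tr s)) 0 := by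
  have e : sg (t.tr s) + t.L (Finsupp.single s 1) = 0 := by
    simp only [Tree.L, Finsupp.linearCombination_single, one_smul]
    exact two_smul_ch _
  refine ⟨Finsupp.single s 1, by rw [e]; exact Submodule.zero_mem _, ?_⟩
  have : (⟨sg (t.tr s) + t.L (Finsupp.single s 1), by rw [e]; exact Submodule.zero_mem _⟩ :
    Zt W p) = 0 := Subtype.ext e
  rw [this, map_zero]

theorem cl_deg (hπ : ∀ z : Zt W p, z.1 ∈ Bt W p → π z = 0) {x : Sx W (p + 1)} (hx : Deg x) :
    Cl t π (sg x) 0 := by
  have h1 : sg x ∈ Bt W p := Submodule.mem_sup_left (sg_mem_DD hx)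
  have h2 : sg x ∈ Zt W p := Bt_le_Zt W p h1
  have := cl_zt (t := t) (π := π) ⟨sg x, h2⟩
  rwa [hπ _ h1] at this

end cls

section chn

variable {W : SSet.{0}} {p : ℕ}

theorem Chn.append {a b c : Sx W p} {x y : Ch W (p + 1)} (h : Chn a b x) (h' : Chn b c y) :
    Chn a c (x + y) := by
  induction h with
  | one ρ i o h => exact Chn.cons ρ i o h h'
  | cons ρ i o h hx ih =>
    rw [add_assoc]
    exact Chn.cons ρ i o h (ih h')

/-- Explicit data of a walk. -/
structure WD (W : SSet.{0}) (p : ℕ) where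
  /-- the length minus one -/
  r : ℕ
  /-- the simplices -/
  ρ : ℕ → Sx W (p + 1)
  /-- the entrance -/
  i : ℕ → Fin (p + 2)
  /-- the exit -/
  o : ℕ → Fin (p + 2)
  ne : ∀ k, i k ≠ o k
  glue : ∀ k, k < r → res (SimplexCategory.δ (o k)) (ρ k) =
    res (SimplexCategory.δ (i (k + 1))) (ρ (k + 1))

/-- The total chain of a walk. -/
noncomputable def WD.total (w : WD W p) : Ch W (p + 1) :=
  ∑ k ∈ Finset.range (w.r + 1), sg (w.ρ k)

theorem Chn.exists_wd {a b : Sx W p} {x : Ch W (p + 1)} (h : Chn a b x) :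
    ∃ w : WD W p, w.total = x ∧ res (SimplexCategory.δ (w.i 0)) (w.ρ 0) = a := by
  induction h with
  | one ρ i o h =>
    refine ⟨⟨0, fun _ => ρ, fun _ => i, fun _ => o, fun _ => h, fun k hk => ?_⟩, ?_, rfl⟩
    · exact absurd hk (Nat.not_lt_zero _)
    · simp [WD.total]
  | cons ρ i o h hx ih =>
    obtain ⟨w, h1, h2⟩ := ih
    refine ⟨⟨w.r + 1, fun k => Nat.casesOn k ρ w.ρ, fun k => Nat.casesOn k i w.i,
      fun k => Nat.casesOn k o w.o, ?_, ?_⟩, ?_, rfl⟩
    · intro k
      cases k with
      | zero => exact h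
      | succ k => exact w.ne k
    · intro k hk
      cases k with
      | zero => exact h2.symm
      | succ k => exact w.glue k (by omega)
    · rw [← h1]
      simp only [WD.total]
      rw [Finset.sum_range_succ' _ (w.r + 1)]
      exact add_comm _ _

end chn

section walk

variable {W : SSet.{0}} {p : ℕ} (t : Tree W p) {U : Type} [AddCommGroup U] [Module F2 U]
  (π : Zt W p →ₗ[F2] U)

/-- There is a walk of class `u`. -/
def RR (a b : Sx W p) (u : U) : Prop := ∃ x, Chn a b x ∧ Cl t π x u

variable {t π}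

theorem RR.trans {a b c : Sx W p} {u v : U} (h : RR t π a b u) (h' : RR t π b c v) :
    RR t π a c (u + v) := by
  obtain ⟨x, h1, h2⟩ := h
  obtain ⟨y, h3, h4⟩ := h'
  exact ⟨x + y, h1.append h3, h2.add h4⟩

theorem RR.trans_zero {a b c : Sx W p} (h : RR t π a b 0) (h' : RR t π b c 0) :
    RR t π a c 0 := by
  have := h.trans h'
  rwa [add_zero] at this

theorem exists_walk (h0 : ∀ a b : Sx W p, RR t π a b 0) (x : Ch W (p + 1)) (u : U)
    (hu : Cl t π x u) (a b : Sx W p) : RR t π a b u := by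
  induction x using ch_induction generalizing u a b with
  | h0 =>
    have h1 : Cl t π (0 : Ch W (p + 1)) (π 0) := cl_zt (t := t) (π := π) 0
    rw [map_zero] at h1
    rw [hu.unique h1]
    exact h0 a b
  | hadd x y hx hy =>
    obtain ⟨u1, h1⟩ := Cl.exists (t := t) (π := π) x
    obtain ⟨u2, h2⟩ := Cl.exists (t := t) (π := π) y
    rw [hu.unique (h1.add h2)]
    exact (hx u1 h1 a b).trans (hy u2 h2 b b)
  | hs ρ =>
    have h1 : RR t π (res (SimplexCategory.δ 0) ρ) (res (SimplexCategory.δ 1) ρ) u :=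
      ⟨sg ρ, Chn.one ρ 0 1 (by
        intro h
        have := congrArg Fin.val h
        simp at this), hu⟩
    have h2 := ((h0 a _).trans h1).trans (h0 _ b)
    rwa [zero_add, add_zero] at h2

/-- Predicates invariant along the edges of the tree are invariant along all edges. -/
theorem inv_of_tree {W : SSet.{0}} (t : Tree W 0) (q : Sx W 0 → Prop)
    (h : ∀ s : t.T, q (res (SimplexCategory.δ 0) (t.tr s)) ↔
      q (res (SimplexCategory.δ 1) (t.tr s))) (e : Sx W 1) :
    q (res (SimplexCategory.δ 0) e) ↔ q (res (SimplexCategory.δ 1) e) := by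
  classical
  let χ : Sx W 0 → F2 := fun v => if q v then 1 else 0
  have hD : ∀ c ∈ DD W 0, c = 0 := by
    intro c hc
    have : DD W 0 ≤ ⊥ := by
      unfold DD
      rw [Submodule.span_le]
      rintro _ ⟨x, hx, rfl⟩
      exact absurd hx (not_deg_zero x)
    exact (Submodule.mem_bot F2).1 (this hc)
  have h1 : ∀ c : t.T →₀ F2, ev χ (bd W 0 (t.L c)) = 0 := by
    intro c
    have : (ev χ ∘ₗ bd W 0 ∘ₗ t.L) = 0 := by
      apply Finsupp.lhom_ext'
      intro s
      apply LinearMap.ext_ring
      simp only [LinearMap.comp_apply, Finsupp.lsingle_apply, Tree.L,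
        Finsupp.linearCombination_single, one_smul, bd_sg, map_sum, ev_sg, LinearMap.zero_apply]
      rw [Fin.sum_univ_two]
      simp only [χ]
      have h2 := h s
      by_cases h3 : q (res (SimplexCategory.δ 0) (t.tr s))
      · rw [if_pos h3, if_pos (h2.1 h3)]
        rfl
      · rw [if_neg h3, if_neg (fun h4 => h3 (h2.2 h4))]
        rfl
    exact congrArg (fun l => l c) this
  obtain ⟨c, hc⟩ := t.sp (sg e)
  have h2 := hD _ hc
  have h3 := congrArg (ev χ) h2
  rw [map_add, map_add, map_zero] at h3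
  have h4 := h1 c
  rw [Tree.L] at h4
  rw [h4, add_zero, bd_sg, map_sum] at h3
  simp only [ev_sg] at h3
  rw [Fin.sum_univ_two] at h3
  simp only [χ] at h3
  constructor
  · intro h5
    by_contra h6
    rw [if_pos h5, if_neg h6] at h3
    exact absurd h3 (by decide)
  · intro h5
    by_contra h6
    rw [if_neg h6, if_pos h5] at h3
    exact absurd h3 (by decide)

theorem walk_zero {W : SSet.{0}} (hW : Conn W) (t : Tree W 0) {U : Type} [AddCommGroup U]
    [Module F2 U] (π : Zt W 0 →ₗ[F2] U) (hπ : ∀ z : Zt W 0, z.1 ∈ Bt W 0 → π z = 0)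
    (a b : Sx W 0) : RR t π a b 0 := by
  have hne : ∀ i o : Fin 2, i.val ≠ o.val → i ≠ o := fun i o h h' => h (congrArg Fin.val h')
  refine hW.2 (fun v => RR t π a v 0) ?_ a b ?_
  · apply inv_of_tree t (fun v => RR t π a v 0)
    intro s
    constructor
    · intro h
      exact h.trans_zero ⟨_, Chn.one (t.tr s) 0 1 (by decide), cl_tree s⟩
    · intro h
      exact h.trans_zero ⟨_, Chn.one (t.tr s) 1 0 (by decide), cl_tree s⟩
  · have h1 := Chn.one (res (SimplexCategory.σ 0) a : Sx W 1) 0 1 (by decide)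
    have e0 : res (SimplexCategory.δ 0) (res (SimplexCategory.σ 0) a) = a := by
      rw [res_res]
      have : (SimplexCategory.δ 0 : (⦋0⦌ : SimplexCategory) ⟶ ⦋1⦌) ≫ SimplexCategory.σ 0 = 𝟙 _ := by
        ext a; fin_cases a; rfl
      rw [this, res_id]
    have e1 : res (SimplexCategory.δ 1) (res (SimplexCategory.σ 0) a) = a := by
      rw [res_res]
      have : (SimplexCategory.δ 1 : (⦋0⦌ : SimplexCategory) ⟶ ⦋1⦌) ≫ SimplexCategory.σ 0 = 𝟙 _ := by
        ext a; fin_cases a; rfl
      rw [this, res_id]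
    rw [e0, e1] at h1
    exact ⟨_, h1, cl_deg hπ (deg_σ _ _)⟩

theorem walk_one {W : SSet.{0}} (hW : Conn W) (t : Tree W 1) {U : Type} [AddCommGroup U]
    [Module F2 U] (π : Zt W 1 →ₗ[F2] U) (hπ : ∀ z : Zt W 1, z.1 ∈ Bt W 1 → π z = 0)
    (a b : Sx W 1) : RR t π a b 0 := by
  let s : Sx W 0 → Sx W 1 := fun v => res (SimplexCategory.σ 0) v
  have f00 : ∀ e : Sx W 1, res (SimplexCategory.δ 0) (res (SimplexCategory.σ 0) e) = e := by
    intro e
    rw [res_res]
    have : (SimplexCategory.δ 0 : (⦋1⦌ : SimplexCategory) ⟶ ⦋2⦌) ≫ SimplexCategory.σ 0 = 𝟙 _ := by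
      ext a; fin_cases a <;> rfl
    rw [this, res_id]
  have f02 : ∀ e : Sx W 1, res (SimplexCategory.δ 2) (res (SimplexCategory.σ 0) e) =
      s (res (SimplexCategory.δ 1) e) := by
    intro e
    simp only [s]
    rw [res_res, res_res]
    have : (SimplexCategory.δ 2 : (⦋1⦌ : SimplexCategory) ⟶ ⦋2⦌) ≫ SimplexCategory.σ 0 =
        SimplexCategory.σ 0 ≫ SimplexCategory.δ 1 := by
      ext a; fin_cases a <;> rfl
    rw [this]
  have f12 : ∀ e : Sx W 1, res (SimplexCategory.δ 2) (res (SimplexCategory.σ 1) e) = e := by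
    intro e
    rw [res_res]
    have : (SimplexCategory.δ 2 : (⦋1⦌ : SimplexCategory) ⟶ ⦋2⦌) ≫ SimplexCategory.σ 1 = 𝟙 _ := by
      ext a; fin_cases a <;> rfl
    rw [this, res_id]
  have f10 : ∀ e : Sx W 1, res (SimplexCategory.δ 0) (res (SimplexCategory.σ 1) e) =
      s (res (SimplexCategory.δ 0) e) := by
    intro e
    simp only [s]
    rw [res_res, res_res]
    have : (SimplexCategory.δ 0 : (⦋1⦌ : SimplexCategory) ⟶ ⦋2⦌) ≫ SimplexCategory.σ 1 =
        SimplexCategory.σ 0 ≫ SimplexCategory.δ 0 := by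
      ext a; fin_cases a <;> rfl
    rw [this]
  have r1 : ∀ e : Sx W 1, RR t π e (s (res (SimplexCategory.δ 1) e)) 0 := by
    intro e
    have h1 := Chn.one (res (SimplexCategory.σ 0) e : Sx W 2) 0 2 (by decide)
    rw [f00, f02] at h1
    exact ⟨_, h1, cl_deg hπ (deg_σ _ _)⟩
  have r1' : ∀ e : Sx W 1, RR t π (s (res (SimplexCategory.δ 1) e)) e 0 := by
    intro e
    have h1 := Chn.one (res (SimplexCategory.σ 0) e : Sx W 2) 2 0 (by decide)
    rw [f00, f02] at h1
    exact ⟨_, h1, cl_deg hπ (deg_σ _ _)⟩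
  have r0 : ∀ e : Sx W 1, RR t π e (s (res (SimplexCategory.δ 0) e)) 0 := by
    intro e
    have h1 := Chn.one (res (SimplexCategory.σ 1) e : Sx W 2) 2 0 (by decide)
    rw [f12, f10] at h1
    exact ⟨_, h1, cl_deg hπ (deg_σ _ _)⟩
  have r0' : ∀ e : Sx W 1, RR t π (s (res (SimplexCategory.δ 0) e)) e 0 := by
    intro e
    have h1 := Chn.one (res (SimplexCategory.σ 1) e : Sx W 2) 0 2 (by decide)
    rw [f12, f10] at h1
    exact ⟨_, h1, cl_deg hπ (deg_σ _ _)⟩
  have key : RR t π a (s (res (SimplexCategory.δ 1) b)) 0 := by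
    refine hW.2 (fun v => RR t π a (s v) 0) ?_ (res (SimplexCategory.δ 1) a) _ (r1 a)
    intro e
    constructor
    · intro h
      exact (h.trans_zero (r0' e)).trans_zero (r1 e)
    · intro h
      exact (h.trans_zero (r1' e)).trans_zero (r0 e)
  exact key.trans_zero (r1' b)

end walk

end Pool.Agent.W2helper51.HSC
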