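import Mathlib
import Pool.Agent.W2helper51.HSC.Walk

set_option autoImplicit false

/-!
# Connected components and coproducts
-/

open CategoryTheory Opposite Simplicial Limits

namespace Pool.Agent.W2helper51.HSC

section comp

variable (S : SSet.{0})

/-- Predicates on vertices invariant along the edges. -/
def Inv (q : Sx S 0 → Prop) : Prop :=
  ∀ e : Sx S 1, q (res (SimplexCategory.δ 0) e) ↔ q (res (SimplexCategory.δ 1) e)

/-- Two vertices lie in the same component. -/
def sameC : Setoid (Sx S 0) where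
  r a b := ∀ q : Sx S 0 → Prop, Inv S q → (q a ↔ q b)
  iseqv :=
    { refl := fun _ _ _ => Iff.rfl
      symm := fun h q hq => (h q hq).symm
      trans := fun h h' q hq => (h q hq).trans (h' q hq) }

/-- The set of components. -/
def Pi0 : Type := Quotient (sameC S)

/-- The component of a simplex. -/
def cls {n : SimplexCategoryᵒᵖ} (x : S.obj n) : Pi0 S :=
  Quotient.mk (sameC S) (S.map (SimplexCategory.const ⦋0⦌ n.unop 0).op x)

variable {S}

theorem edge_sameC (e : Sx S 1) :
    (sameC S).r (res (SimplexCategory.δ 0) e) (res (SimplexCategory.δ 1) e) :=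
  fun _ hq => hq e

/-- The map `⦋1⦌ ⟶ X` with the values `a ≤ b`. -/
def edgeMap {X : SimplexCategory} (a b : Fin (X.len + 1)) (h : a ≤ b) : ⦋1⦌ ⟶ X :=
  SimplexCategory.Hom.mk
    { toFun := fun i => if i = 0 then a else b
      monotone' := by
        intro i j hij
        show (if i = 0 then a else b) ≤ (if j = 0 then a else b)
        by_cases hi : i = 0
        · by_cases hj : j = 0
          · rw [if_pos hi, if_pos hj]
          · rw [if_pos hi, if_neg hj]
            exact h
        · have hj : j ≠ 0 := by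
            intro hj
            apply hi
            rw [hj] at hij
            exact le_antisymm hij (Fin.zero_le _)
          rw [if_neg hi, if_neg hj] }

theorem vertex_sameC {n : SimplexCategoryᵒᵖ} (x : S.obj n) (a b : Fin (n.unop.len + 1))
    (h : a ≤ b) :
    (sameC S).r (S.map (SimplexCategory.const ⦋0⦌ n.unop b).op x)
      (S.map (SimplexCategory.const ⦋0⦌ n.unop a).op x) := by
  have h1 := edge_sameC (S := S) (S.map (edgeMap a b h).op x)
  have e0 : (SimplexCategory.δ 0 : (⦋0⦌ : SimplexCategory) ⟶ ⦋1⦌) ≫ edgeMap a b h =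
      SimplexCategory.const ⦋0⦌ n.unop b := by
    ext i
    fin_cases i
    rfl
  have e1 : (SimplexCategory.δ 1 : (⦋0⦌ : SimplexCategory) ⟶ ⦋1⦌) ≫ edgeMap a b h =
      SimplexCategory.const ⦋0⦌ n.unop a := by
    ext i
    fin_cases i
    rfl
  have f0 : (res (SimplexCategory.δ 0) (S.map (edgeMap a b h).op x : Sx S 1) : Sx S 0) =
      S.map (SimplexCategory.const ⦋0⦌ n.unop b).op x := by
    rw [← e0]
    simp [res]
  have f1 : (res (SimplexCategory.δ 1) (S.map (edgeMap a b h).op x : Sx S 1) : Sx S 0) =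
      S.map (SimplexCategory.const ⦋0⦌ n.unop a).op x := by
    rw [← e1]
    simp [res]
  rw [f0, f1] at h1
  exact h1

theorem cls_map {n m : SimplexCategoryᵒᵖ} (f : n ⟶ m) (x : S.obj n) :
    cls S (S.map f x) = cls S x := by
  unfold cls
  apply Quotient.sound
  have h1 := vertex_sameC x 0 (f.unop.toOrderHom 0) (Fin.zero_le _)
  have e : S.map (SimplexCategory.const ⦋0⦌ m.unop 0).op (S.map f x) =
      S.map (SimplexCategory.const ⦋0⦌ n.unop (f.unop.toOrderHom 0)).op x := by
    have : (SimplexCategory.const ⦋0⦌ n.unop (f.unop.toOrderHom 0)).op =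
        f ≫ (SimplexCategory.const ⦋0⦌ m.unop 0).op := rfl
    rw [this]
    simp
  rw [e]
  exact h1

theorem cls_vertex (x : Sx S 0) : cls S x = Quotient.mk (sameC S) x := by
  unfold cls
  congr 1
  have : (SimplexCategory.const ⦋0⦌ (op ⦋0⦌ : SimplexCategoryᵒᵖ).unop 0) = 𝟙 _ :=
    Subsingleton.elim (α := (⦋0⦌ : SimplexCategory) ⟶ ⦋0⦌) _ _
  rw [this]
  simp

/-- The component `c` of `S`. -/
def comp (S : SSet.{0}) (c : Pi0 S) : SSet.{0} where
  obj n := {x : S.obj n // cls S x = c}
  map f := ↾fun x => ⟨S.map f x.1, (cls_map f x.1).trans x.2⟩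
  map_id n := by
    ext x
    simp
  map_comp f g := by
    ext x
    simp

/-- The inclusion of a component. -/
def compι (S : SSet.{0}) (c : Pi0 S) : comp S c ⟶ S where
  app n := ↾fun x => Subtype.val (p := fun y => cls S y = c) x
  naturality n m f := by
    ext x
    rfl

theorem conn_comp (S : SSet.{0}) (c : Pi0 S) : Conn (comp S c) := by
  obtain ⟨v, rfl⟩ := Quotient.exists_rep c
  have hv : cls S v = Quotient.mk (sameC S) v := cls_vertex v
  refine ⟨⟨(⟨v, hv⟩ : {x : S.obj (op ⦋0⦌) // cls S x = Quotient.mk (sameC S) v})⟩, ?_⟩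
  intro q hq
  let Q : Sx S 0 → Prop := fun b => ∃ h : cls S b = Quotient.mk (sameC S) v,
    q (⟨b, h⟩ : {x : S.obj (op ⦋0⦌) // cls S x = Quotient.mk (sameC S) v})
  have hQ : Inv S Q := by
    intro e
    by_cases he : cls S e = Quotient.mk (sameC S) v
    · have h0 : cls S (res (SimplexCategory.δ 0) e) = Quotient.mk (sameC S) v :=
        (cls_map _ e).trans he
      have h1 : cls S (res (SimplexCategory.δ 1) e) = Quotient.mk (sameC S) v :=
        (cls_map _ e).trans he
      have h2 := hq (⟨e, he⟩ : {x : S.obj (op ⦋1⦌) // cls S x = Quotient.mk (sameC S) v})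
      constructor
      · rintro ⟨_, h⟩
        exact ⟨h1, h2.1 h⟩
      · rintro ⟨_, h⟩
        exact ⟨h0, h2.2 h⟩
    · constructor
      · rintro ⟨h, _⟩
        exact absurd ((cls_map _ e).symm.trans h) he
      · rintro ⟨h, _⟩
        exact absurd ((cls_map _ e).symm.trans h) he
  rintro ⟨a, ha⟩ ⟨b, hb⟩ hqa
  have h1 : (sameC S).r a b := by
    have ha' := ha
    have hb' := hb
    rw [cls_vertex] at ha' hb'
    exact Quotient.exact (ha'.trans hb'.symm)
  obtain ⟨_, h⟩ := (h1 Q hQ).1 ⟨ha, hqa⟩
  exact h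

theorem assemble {X : SSet.{0}} (E P : Over X)
    (h : ∀ c : Pi0 E.left, Nonempty (Over.mk (compι E.left c ≫ E.hom) ⟶ P)) :
    Nonempty (E ⟶ P) := by
  obtain ⟨f⟩ : Nonempty (∀ c : Pi0 E.left, (Over.mk (compι E.left c ≫ E.hom) ⟶ P)) :=
    ⟨fun c => Classical.choice (h c)⟩
  have hf : ∀ (n : SimplexCategoryᵒᵖ) (x : E.left.obj n) (c c' : Pi0 E.left) (h : cls _ x = c)
      (h' : cls _ x = c'), c = c' → (f c).left.app n ⟨x, h⟩ = (f c').left.app n ⟨x, h'⟩ := by
    intro n x c c' h h' hc
    subst hc
    rfl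
  refine ⟨Over.homMk
    { app := fun n => ↾fun x => (f (cls _ x)).left.app n ⟨x, rfl⟩
      naturality := ?_ } ?_⟩
  · intro n m g
    ext x
    change (f (cls _ (E.left.map g x))).left.app m ⟨E.left.map g x, rfl⟩ =
      P.left.map g ((f (cls _ x)).left.app n ⟨x, rfl⟩)
    rw [hf m (E.left.map g x) _ (cls _ x) rfl (cls_map g x) (cls_map g x)]
    exact NatTrans.naturality_apply (f (cls _ x)).left g ⟨x, rfl⟩
  · ext n x
    have h1 := Over.w (f (cls _ x))
    exact congrArg (fun k => k.app n ⟨x, rfl⟩) h1

end comp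

section coprod

variable {X : SSet.{0}}

theorem coprod_facts {P Q R : Over X} (i : P ⟶ R) (j : Q ⟶ R)
    (h : IsColimit (BinaryCofan.mk i j)) (n : SimplexCategoryᵒᵖ) :
    Function.Injective (i.left.app n) ∧ Function.Injective (j.left.app n) ∧
      IsCompl (Set.range (i.left.app n)) (Set.range (j.left.app n)) := by
  let G : Over X ⥤ Type := Over.forget X ⋙ (evaluation SimplexCategoryᵒᵖ Type).obj n
  have h1 := mapIsColimitOfPreservesOfIsColimit G i j h
  exact (Types.binaryCofan_isColimit_iff _).1 ⟨h1⟩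

theorem lift_of_range {D P R : Over X} (f : D ⟶ R) (i : P ⟶ R)
    (hi : ∀ n, Function.Injective (i.left.app n))
    (h : ∀ (n : SimplexCategoryᵒᵖ) (x : D.left.obj n), f.left.app n x ∈ Set.range (i.left.app n)) :
    Nonempty (D ⟶ P) := by
  choose k hk using h
  refine ⟨Over.homMk
    { app := fun n => ↾fun x => k n x
      naturality := ?_ } ?_⟩
  · intro n m g
    ext x
    change k m (D.left.map g x) = P.left.map g (k n x)
    apply hi m
    rw [hk]
    have h1 := NatTrans.naturality_apply f.left g x
    have h2 := NatTrans.naturality_apply i.left g (k n x)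
    rw [hk] at h2
    exact h1.trans h2.symm
  · ext n x
    have h1 := Over.w i
    have h2 := Over.w f
    change P.hom.app n (k n x) = D.hom.app n x
    rw [← h1, ← h2]
    exact congrArg (fun y => R.hom.app n y) (hk n x)

theorem or_of_conn {D P Q R : Over X} (hD : Conn D.left) (f : D ⟶ R) (i : P ⟶ R) (j : Q ⟶ R)
    (h : IsColimit (BinaryCofan.mk i j)) : Nonempty (D ⟶ P) ∨ Nonempty (D ⟶ Q) := by
  classical
  have hfacts := coprod_facts i j h
  -- a simplex and its restrictions lie on the same side
  have hside : ∀ (n m : SimplexCategoryᵒᵖ) (g : n ⟶ m) (x : D.left.obj n),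
      f.left.app n x ∈ Set.range (i.left.app n) ↔
        f.left.app m (D.left.map g x) ∈ Set.range (i.left.app m) := by
    intro n m g x
    have hn := NatTrans.naturality_apply f.left g x
    constructor
    · rintro ⟨y, hy⟩
      refine ⟨P.left.map g y, ?_⟩
      rw [hn, ← hy]
      exact NatTrans.naturality_apply i.left g y
    · intro h1
      by_contra h2
      have h3 : f.left.app n x ∈ Set.range (j.left.app n) := by
        have := (hfacts n).2.2.compl_eq
        rw [← this]
        exact h2
      obtain ⟨y, hy⟩ := h3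
      have h4 : f.left.app m (D.left.map g x) ∈ Set.range (j.left.app m) := by
        refine ⟨Q.left.map g y, ?_⟩
        rw [hn, ← hy]
        exact NatTrans.naturality_apply j.left g y
      exact Set.disjoint_left.1 (hfacts m).2.2.disjoint h1 h4
  obtain ⟨⟨v⟩, hD⟩ := hD
  let q : Sx D.left 0 → Prop := fun a => f.left.app _ a ∈ Set.range (i.left.app (op ⦋0⦌))
  have hq : ∀ e : Sx D.left 1, q (res (SimplexCategory.δ 0) e) ↔
      q (res (SimplexCategory.δ 1) e) := by
    intro e
    exact (hside _ _ (SimplexCategory.δ 0).op e).symm.trans (hside _ _ (SimplexCategory.δ 1).op e)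
  have hall := hD q hq
  by_cases hv : q v
  · left
    apply lift_of_range f i (fun n => (hfacts n).1)
    intro n x
    rw [hside n (op ⦋0⦌) (SimplexCategory.const ⦋0⦌ n.unop 0).op x]
    exact hall v _ hv
  · right
    apply lift_of_range f j (fun n => (hfacts n).2.1)
    intro n x
    rw [← (hfacts n).2.2.compl_eq]
    intro h1
    rw [hside n (op ⦋0⦌) (SimplexCategory.const ⦋0⦌ n.unop 0).op x] at h1
    exact hv (hall _ v h1)

end coprod

end Pool.Agent.W2helper51.HSC
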