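import Mathlib
import Pool.Agent.W2helper51.HSC.KComplex

set_option autoImplicit false

/-!
# Homotopies of maps to `KK p` and coboundaries
-/

open CategoryTheory Opposite Simplicial MonoidalCategory CartesianMonoidalCategory

namespace Pool.Agent.W2helper51.HSC

section prism

variable {W V Y : SSet.{0}}

/-- The simplex of `Δ[1]` of a map. -/
def tau {k : ℕ} (θ : ⦋k⦌ ⟶ ⦋1⦌) : Sx (Δ[1] : SSet.{0}) k := SSet.stdSimplex.objEquiv.symm θ

/-- A simplex of the prism. -/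
def pr {k : ℕ} (θ : ⦋k⦌ ⟶ ⦋1⦌) (x : Sx W k) : Sx ((Δ[1] : SSet.{0}) ⊗ W) k := (tau θ, x)

theorem res_pr {m k : ℕ} (α : ⦋m⦌ ⟶ ⦋k⦌) (θ : ⦋k⦌ ⟶ ⦋1⦌) (x : Sx W k) :
    res α (pr θ x) = pr (α ≫ θ) (res α x) := rfl

/-- The inclusion at the vertex `i`. -/
noncomputable def ee (W : SSet.{0}) (i : Fin 2) : W ⟶ (Δ[1] : SSet.{0}) ⊗ W :=
  lift (SSet.const (SSet.stdSimplex.obj₀Equiv.symm i)) (𝟙 W)

theorem ap_ee (i : Fin 2) {k : ℕ} (x : Sx W k) :
    ap (ee W i) x = pr (SimplexCategory.const ⦋k⦌ ⦋1⦌ i) x := by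
  apply Prod.ext
  · apply SSet.stdSimplex.objEquiv.injective
    rfl
  · rfl

/-- The relation of being joined by a homotopy. -/
def Htp (f g : W ⟶ Y) : Prop := ∃ H : (Δ[1] : SSet.{0}) ⊗ W ⟶ Y, ee W 0 ≫ H = f ∧ ee W 1 ≫ H = g

end prism

section cob

variable {W V : SSet.{0}} {p : ℕ}

/-- The coboundary of a normalised cochain. -/
def cob {k : ℕ} (ψ : Sx W k → F2) (hψ : ∀ y, Deg y → ψ y = 0) : Coc W k where
  v := fun x => ∑ i : Fin (k + 2), ψ (res (SimplexCategory.δ i) x)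
  deg := by
    intro x hx
    obtain ⟨b, y, rfl⟩ := hx.exists_σ
    exact sum_deg W ψ hψ b y
  coc := by
    intro x
    have h := congrArg (ev ψ) (bd_bd_sg W k x)
    rw [map_zero, bd_sg, map_sum, map_sum] at h
    simpa using h

/-- The sum of two cocycles. -/
def Coc.add {k : ℕ} (a b : Coc W k) : Coc W k where
  v := fun x => a.v x + b.v x
  deg := fun x hx => by rw [a.deg x hx, b.deg x hx, add_zero]
  coc := fun x => by rw [Finset.sum_add_distrib, a.coc x, b.coc x, add_zero]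

theorem htp_of_cob (f g : W ⟶ KK p) (ψ : Sx W p → F2) (hψ : ∀ y, Deg y → ψ y = 0)
    (h : ∀ x, (toCoc f).v x + (toCoc g).v x = ∑ i : Fin (p + 2), ψ (res (SimplexCategory.δ i) x)) :
    Htp f g := by
  classical
  let ψ' : Sx ((Δ[1] : SSet.{0}) ⊗ W) p → F2 := fun y =>
    if y.1 = tau (SimplexCategory.const ⦋p⦌ ⦋1⦌ 1) then ψ y.2 else 0
  have hψ' : ∀ y, Deg y → ψ' y = 0 := by
    intro y hy
    simp only [ψ']
    split_ifs
    · exact hψ _ (hy.ap (snd (Δ[1] : SSet.{0}) W))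
    · rfl
  let u : Coc ((Δ[1] : SSet.{0}) ⊗ W) p := ((toCoc f).pull (snd _ _)).add (cob ψ' hψ')
  have hc : ∀ (i : Fin 2) (m k : ℕ) (α : ⦋m⦌ ⟶ ⦋k⦌),
      α ≫ SimplexCategory.const ⦋k⦌ ⦋1⦌ i = SimplexCategory.const ⦋m⦌ ⦋1⦌ i := by
    intro i m k α
    rfl
  have hu : ∀ (i : Fin 2) (x : Sx W (p + 1)), u.v (ap (ee W i) x) =
      (toCoc f).v x + ∑ j : Fin (p + 2), (if i = 1 then ψ (res (SimplexCategory.δ j) x) else 0) := by
    intro i x
    rw [ap_ee]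
    change (toCoc f).v x + ∑ j : Fin (p + 2), ψ' (res (SimplexCategory.δ j) (pr _ x)) = _
    congr 1
    refine Finset.sum_congr rfl (fun j _ => ?_)
    rw [res_pr, hc]
    simp only [ψ', pr]
    have : tau (SimplexCategory.const ⦋p⦌ ⦋1⦌ i) = tau (SimplexCategory.const ⦋p⦌ ⦋1⦌ 1) ↔
        i = 1 := by
      constructor
      · intro h
        have h2 := SSet.stdSimplex.objEquiv.symm.injective h
        have h3 := congrArg (fun θ => θ.toOrderHom 0) h2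
        exact h3
      · rintro rfl
        rfl
    simp only [this]
  refine ⟨ofCoc u, ?_, ?_⟩
  · apply toCoc_inj
    intro x
    rw [toCoc_comp]
    change (toCoc (ofCoc u)).v (ap (ee W 0) x) = _
    rw [toCoc_ofCoc, hu]
    simp
  · apply toCoc_inj
    intro x
    rw [toCoc_comp]
    change (toCoc (ofCoc u)).v (ap (ee W 1) x) = _
    rw [toCoc_ofCoc, hu]
    simp only [if_true]
    rw [← h x, ← add_assoc, two_smul_ch, zero_add]

end cob

section prismlemma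

variable {W : SSet.{0}}

/-- The map `⦋k⦌ ⟶ ⦋1⦌` whose value is `0` exactly on the first `j` vertices. -/
def step (k j : ℕ) : (⦋k⦌ : SimplexCategory) ⟶ ⦋1⦌ :=
  SimplexCategory.mkHom
    { toFun := fun a => if a.val < j then 0 else 1
      monotone' := by
        intro a b hab
        have h1 : a.val ≤ b.val := hab
        show (if a.val < j then (0 : Fin 2) else 1) ≤ (if b.val < j then (0 : Fin 2) else 1)
        split_ifs with h2 h3
        · exact le_rfl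
        · exact Fin.zero_le _
        · omega
        · exact le_rfl }

theorem coc_pr {p : ℕ} (u : Coc ((Δ[1] : SSet.{0}) ⊗ W) p) (θ : ⦋p + 2⦌ ⟶ ⦋1⦌)
    (x : Sx W (p + 2)) :
    ∑ i : Fin (p + 3), u.v (pr (SimplexCategory.δ i ≫ θ) (res (SimplexCategory.δ i) x)) = 0 :=
  u.coc (pr θ x)

theorem prism_zero (u : Coc ((Δ[1] : SSet.{0}) ⊗ W) 0) (x : Sx W 1) :
    u.v (pr (SimplexCategory.const ⦋1⦌ ⦋1⦌ 0) x) + u.v (pr (SimplexCategory.const ⦋1⦌ ⦋1⦌ 1) x) =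
      ∑ i : Fin 2, u.v (pr (step 1 1)
        (res (SimplexCategory.σ 0) (res (SimplexCategory.δ i) x))) := by
  have h0 := coc_pr u (step 2 1) (res (SimplexCategory.σ 0) x)
  have h1 := coc_pr u (step 2 2) (res (SimplexCategory.σ 1) x)
  have a00 : (SimplexCategory.δ 0 : (⦋1⦌ : SimplexCategory) ⟶ ⦋2⦌) ≫ step 2 1 =
    SimplexCategory.const ⦋1⦌ ⦋1⦌ 1 := by
    ext a; fin_cases a <;> rfl
  have a01 : (SimplexCategory.δ 1 : (⦋1⦌ : SimplexCategory) ⟶ ⦋2⦌) ≫ step 2 1 = step 1 1 := by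
    ext a; fin_cases a <;> rfl
  have a02 : (SimplexCategory.δ 2 : (⦋1⦌ : SimplexCategory) ⟶ ⦋2⦌) ≫ step 2 1 = step 1 1 := by
    ext a; fin_cases a <;> rfl
  have a10 : (SimplexCategory.δ 0 : (⦋1⦌ : SimplexCategory) ⟶ ⦋2⦌) ≫ step 2 2 = step 1 1 := by
    ext a; fin_cases a <;> rfl
  have a11 : (SimplexCategory.δ 1 : (⦋1⦌ : SimplexCategory) ⟶ ⦋2⦌) ≫ step 2 2 = step 1 1 := by
    ext a; fin_cases a <;> rfl
  have a12 : (SimplexCategory.δ 2 : (⦋1⦌ : SimplexCategory) ⟶ ⦋2⦌) ≫ step 2 2 =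
    SimplexCategory.const ⦋1⦌ ⦋1⦌ 0 := by
    ext a; fin_cases a <;> rfl
  have b00 : (SimplexCategory.δ 0 : (⦋1⦌ : SimplexCategory) ⟶ ⦋2⦌) ≫ SimplexCategory.σ 0 =
    𝟙 _ := by
    ext a; fin_cases a <;> rfl
  have b01 : (SimplexCategory.δ 1 : (⦋1⦌ : SimplexCategory) ⟶ ⦋2⦌) ≫ SimplexCategory.σ 0 =
    𝟙 _ := by
    ext a; fin_cases a <;> rfl
  have b02 : (SimplexCategory.δ 2 : (⦋1⦌ : SimplexCategory) ⟶ ⦋2⦌) ≫ SimplexCategory.σ 0 =
    SimplexCategory.σ 0 ≫ SimplexCategory.δ 1 := by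
    ext a; fin_cases a <;> rfl
  have b10 : (SimplexCategory.δ 0 : (⦋1⦌ : SimplexCategory) ⟶ ⦋2⦌) ≫ SimplexCategory.σ 1 =
    SimplexCategory.σ 0 ≫ SimplexCategory.δ 0 := by
    ext a; fin_cases a <;> rfl
  have b11 : (SimplexCategory.δ 1 : (⦋1⦌ : SimplexCategory) ⟶ ⦋2⦌) ≫ SimplexCategory.σ 1 =
    𝟙 _ := by
    ext a; fin_cases a <;> rfl
  have b12 : (SimplexCategory.δ 2 : (⦋1⦌ : SimplexCategory) ⟶ ⦋2⦌) ≫ SimplexCategory.σ 1 =
    𝟙 _ := by
    ext a; fin_cases a <;> rfl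
  rw [Fin.sum_univ_three] at h0 h1
  rw [Fin.sum_univ_two]
  rw [res_res, res_res, res_res, a00, a01, a02, b00, b01, b02, ← res_res, res_id] at h0
  rw [res_res, res_res, res_res, a10, a11, a12, b10, b11, b12, ← res_res, res_id] at h1
  have two : (2 : F2) = 0 := rfl
  linear_combination h0 + h1 - (u.v (pr (step 1 1) x) +
    u.v (pr (step 1 1) (res (SimplexCategory.σ 0) (res (SimplexCategory.δ 0) x))) +
    u.v (pr (step 1 1) (res (SimplexCategory.σ 0) (res (SimplexCategory.δ 1) x)))) * two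

theorem prism_one (u : Coc ((Δ[1] : SSet.{0}) ⊗ W) 1) (x : Sx W 2) :
    u.v (pr (SimplexCategory.const ⦋2⦌ ⦋1⦌ 0) x) + u.v (pr (SimplexCategory.const ⦋2⦌ ⦋1⦌ 1) x) =
      ∑ i : Fin 3, (u.v (pr (step 2 1)
        (res (SimplexCategory.σ 0) (res (SimplexCategory.δ i) x))) +
        u.v (pr (step 2 2) (res (SimplexCategory.σ 1) (res (SimplexCategory.δ i) x)))) := by
  have h0 := coc_pr u (step 3 1) (res (SimplexCategory.σ 0) x)
  have h1 := coc_pr u (step 3 2) (res (SimplexCategory.σ 1) x)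
  have h2 := coc_pr u (step 3 3) (res (SimplexCategory.σ 2) x)
  have a00 : (SimplexCategory.δ 0 : (⦋2⦌ : SimplexCategory) ⟶ ⦋3⦌) ≫ step 3 1 =
    SimplexCategory.const ⦋2⦌ ⦋1⦌ 1 := by
    ext a; fin_cases a <;> rfl
  have a01 : (SimplexCategory.δ 1 : (⦋2⦌ : SimplexCategory) ⟶ ⦋3⦌) ≫ step 3 1 = step 2 1 := by
    ext a; fin_cases a <;> rfl
  have a02 : (SimplexCategory.δ 2 : (⦋2⦌ : SimplexCategory) ⟶ ⦋3⦌) ≫ step 3 1 = step 2 1 := by
    ext a; fin_cases a <;> rfl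
  have a03 : (SimplexCategory.δ 3 : (⦋2⦌ : SimplexCategory) ⟶ ⦋3⦌) ≫ step 3 1 = step 2 1 := by
    ext a; fin_cases a <;> rfl
  have a10 : (SimplexCategory.δ 0 : (⦋2⦌ : SimplexCategory) ⟶ ⦋3⦌) ≫ step 3 2 = step 2 1 := by
    ext a; fin_cases a <;> rfl
  have a11 : (SimplexCategory.δ 1 : (⦋2⦌ : SimplexCategory) ⟶ ⦋3⦌) ≫ step 3 2 = step 2 1 := by
    ext a; fin_cases a <;> rfl
  have a12 : (SimplexCategory.δ 2 : (⦋2⦌ : SimplexCategory) ⟶ ⦋3⦌) ≫ step 3 2 = step 2 2 := by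
    ext a; fin_cases a <;> rfl
  have a13 : (SimplexCategory.δ 3 : (⦋2⦌ : SimplexCategory) ⟶ ⦋3⦌) ≫ step 3 2 = step 2 2 := by
    ext a; fin_cases a <;> rfl
  have a20 : (SimplexCategory.δ 0 : (⦋2⦌ : SimplexCategory) ⟶ ⦋3⦌) ≫ step 3 3 = step 2 2 := by
    ext a; fin_cases a <;> rfl
  have a21 : (SimplexCategory.δ 1 : (⦋2⦌ : SimplexCategory) ⟶ ⦋3⦌) ≫ step 3 3 = step 2 2 := by
    ext a; fin_cases a <;> rfl
  have a22 : (SimplexCategory.δ 2 : (⦋2⦌ : SimplexCategory) ⟶ ⦋3⦌) ≫ step 3 3 = step 2 2 := by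
    ext a; fin_cases a <;> rfl
  have a23 : (SimplexCategory.δ 3 : (⦋2⦌ : SimplexCategory) ⟶ ⦋3⦌) ≫ step 3 3 =
    SimplexCategory.const ⦋2⦌ ⦋1⦌ 0 := by
    ext a; fin_cases a <;> rfl
  have b00 : (SimplexCategory.δ 0 : (⦋2⦌ : SimplexCategory) ⟶ ⦋3⦌) ≫ SimplexCategory.σ 0 =
    𝟙 _ := by
    ext a; fin_cases a <;> rfl
  have b01 : (SimplexCategory.δ 1 : (⦋2⦌ : SimplexCategory) ⟶ ⦋3⦌) ≫ SimplexCategory.σ 0 =
    𝟙 _ := by
    ext a; fin_cases a <;> rfl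
  have b02 : (SimplexCategory.δ 2 : (⦋2⦌ : SimplexCategory) ⟶ ⦋3⦌) ≫ SimplexCategory.σ 0 =
    SimplexCategory.σ 0 ≫ SimplexCategory.δ 1 := by
    ext a; fin_cases a <;> rfl
  have b03 : (SimplexCategory.δ 3 : (⦋2⦌ : SimplexCategory) ⟶ ⦋3⦌) ≫ SimplexCategory.σ 0 =
    SimplexCategory.σ 0 ≫ SimplexCategory.δ 2 := by
    ext a; fin_cases a <;> rfl
  have b10 : (SimplexCategory.δ 0 : (⦋2⦌ : SimplexCategory) ⟶ ⦋3⦌) ≫ SimplexCategory.σ 1 =
    SimplexCategory.σ 0 ≫ SimplexCategory.δ 0 := by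
    ext a; fin_cases a <;> rfl
  have b11 : (SimplexCategory.δ 1 : (⦋2⦌ : SimplexCategory) ⟶ ⦋3⦌) ≫ SimplexCategory.σ 1 =
    𝟙 _ := by
    ext a; fin_cases a <;> rfl
  have b12 : (SimplexCategory.δ 2 : (⦋2⦌ : SimplexCategory) ⟶ ⦋3⦌) ≫ SimplexCategory.σ 1 =
    𝟙 _ := by
    ext a; fin_cases a <;> rfl
  have b13 : (SimplexCategory.δ 3 : (⦋2⦌ : SimplexCategory) ⟶ ⦋3⦌) ≫ SimplexCategory.σ 1 =
    SimplexCategory.σ 1 ≫ SimplexCategory.δ 2 := by
    ext a; fin_cases a <;> rfl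
  have b20 : (SimplexCategory.δ 0 : (⦋2⦌ : SimplexCategory) ⟶ ⦋3⦌) ≫ SimplexCategory.σ 2 =
    SimplexCategory.σ 1 ≫ SimplexCategory.δ 0 := by
    ext a; fin_cases a <;> rfl
  have b21 : (SimplexCategory.δ 1 : (⦋2⦌ : SimplexCategory) ⟶ ⦋3⦌) ≫ SimplexCategory.σ 2 =
    SimplexCategory.σ 1 ≫ SimplexCategory.δ 1 := by
    ext a; fin_cases a <;> rfl
  have b22 : (SimplexCategory.δ 2 : (⦋2⦌ : SimplexCategory) ⟶ ⦋3⦌) ≫ SimplexCategory.σ 2 =
    𝟙 _ := by
    ext a; fin_cases a <;> rfl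
  have b23 : (SimplexCategory.δ 3 : (⦋2⦌ : SimplexCategory) ⟶ ⦋3⦌) ≫ SimplexCategory.σ 2 =
    𝟙 _ := by
    ext a; fin_cases a <;> rfl
  rw [Fin.sum_univ_four] at h0 h1 h2
  rw [Fin.sum_univ_three]
  rw [res_res, res_res, res_res, res_res, a00, a01, a02, a03, b00, b01, b02, b03,
    ← res_res (SimplexCategory.σ 0), ← res_res (SimplexCategory.σ 0), res_id] at h0
  rw [res_res, res_res, res_res, res_res, a10, a11, a12, a13, b10, b11, b12, b13,
    ← res_res (SimplexCategory.σ 0), ← res_res (SimplexCategory.σ 1), res_id] at h1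
  rw [res_res, res_res, res_res, res_res, a20, a21, a22, a23, b20, b21, b22, b23,
    ← res_res (SimplexCategory.σ 1), ← res_res (SimplexCategory.σ 1), res_id] at h2
  have two : (2 : F2) = 0 := rfl
  linear_combination h0 + h1 + h2 - (u.v (pr (step 2 1) x) + u.v (pr (step 2 2) x) +
    u.v (pr (step 2 1) (res (SimplexCategory.σ 0) (res (SimplexCategory.δ 0) x))) +
    u.v (pr (step 2 1) (res (SimplexCategory.σ 0) (res (SimplexCategory.δ 1) x))) +
    u.v (pr (step 2 1) (res (SimplexCategory.σ 0) (res (SimplexCategory.δ 2) x))) +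
    u.v (pr (step 2 2) (res (SimplexCategory.σ 1) (res (SimplexCategory.δ 0) x))) +
    u.v (pr (step 2 2) (res (SimplexCategory.σ 1) (res (SimplexCategory.δ 1) x))) +
    u.v (pr (step 2 2) (res (SimplexCategory.σ 1) (res (SimplexCategory.δ 2) x)))) * two

end prismlemma

section classify

variable {W : SSet.{0}}

/-- The property that homotopic maps to `KK p` have cohomologous cocycles. -/
def PrismProp (p : ℕ) : Prop :=
  ∀ (W : SSet.{0}) (f g : W ⟶ KK p), Htp f g → ∀ z ∈ Zt W p, ev (toCoc f).v z = ev (toCoc g).v z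

theorem ev_add_eq_zero {k : ℕ} (a b : Sx W k → F2) (c : Ch W k) :
    ev (fun x => a x + b x) c = ev a c + ev b c := by
  induction c using ch_induction with
  | h0 => simp
  | hadd c d hc hd =>
    simp only [map_add, hc, hd]
    abel
  | hs x => simp

theorem ev_cob {k : ℕ} (ψ : Sx W k → F2) (c : Ch W (k + 1)) :
    ev (fun x => ∑ i : Fin (k + 2), ψ (res (SimplexCategory.δ i) x)) c = ev ψ (bd W k c) := by
  induction c using ch_induction with
  | h0 => simp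
  | hadd c d hc hd => simp only [map_add, hc, hd]
  | hs x => simp

theorem ev_DD {k : ℕ} (ψ : Sx W k → F2) (hψ : ∀ y, Deg y → ψ y = 0) {c : Ch W k}
    (hc : c ∈ DD W k) : ev ψ c = 0 := by
  have : DD W k ≤ LinearMap.ker (ev ψ) := by
    unfold DD
    rw [Submodule.span_le]
    rintro _ ⟨x, hx, rfl⟩
    simp [hψ x hx]
  exact this hc

theorem prismProp_of {p : ℕ} (h : ∀ (W : SSet.{0}) (f g : W ⟶ KK p), Htp f g →
    ∃ ψ : Sx W p → F2, (∀ y, Deg y → ψ y = 0) ∧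
      ∀ x, (toCoc f).v x + (toCoc g).v x = ∑ i : Fin (p + 2), ψ (res (SimplexCategory.δ i) x)) :
    PrismProp p := by
  intro W f g hfg z hz
  obtain ⟨ψ, hψ, h2⟩ := h W f g hfg
  have h3 := ev_add_eq_zero (toCoc f).v (toCoc g).v z
  have h4 : (fun x => (toCoc f).v x + (toCoc g).v x) =
      fun x => ∑ i : Fin (p + 2), ψ (res (SimplexCategory.δ i) x) := funext h2
  rw [h4, ev_cob, ev_DD ψ hψ hz] at h3
  have h5 : ∀ a b : F2, 0 = a + b → a = b := by decide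
  exact h5 _ _ h3

theorem deg_pr_σ {k : ℕ} (θ : ⦋k + 1⦌ ⟶ ⦋1⦌) (b : Fin (k + 1)) (θ' : ⦋k⦌ ⟶ ⦋1⦌)
    (h : θ = SimplexCategory.σ b ≫ θ') (y : Sx W k) :
    Deg (pr θ (res (SimplexCategory.σ b) y)) := by
  subst h
  exact ⟨k, Nat.lt_succ_self k, SimplexCategory.σ b, pr θ' y, rfl⟩

theorem prismProp_zero : PrismProp 0 := by
  apply prismProp_of
  rintro W f g ⟨H, rfl, rfl⟩
  refine ⟨fun y => (toCoc H).v (pr (step 1 1) (res (SimplexCategory.σ 0) y)), ?_, ?_⟩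
  · intro y hy
    exact absurd hy (not_deg_zero y)
  · intro x
    exact prism_zero (toCoc H) x

theorem prismProp_one : PrismProp 1 := by
  apply prismProp_of
  rintro W f g ⟨H, rfl, rfl⟩
  refine ⟨fun y => (toCoc H).v (pr (step 2 1) (res (SimplexCategory.σ 0) y)) +
    (toCoc H).v (pr (step 2 2) (res (SimplexCategory.σ 1) y)), ?_, ?_⟩
  · intro y hy
    obtain ⟨b, v, rfl⟩ := hy.exists_σ
    have hb : b = 0 := Fin.ext (by have := b.2; change b.val = 0; omega)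
    subst hb
    have e1 : (SimplexCategory.σ 0 : (⦋2⦌ : SimplexCategory) ⟶ ⦋1⦌) ≫ SimplexCategory.σ 0 =
        SimplexCategory.σ 1 ≫ SimplexCategory.σ 0 := by
      ext a; fin_cases a <;> rfl
    have d1 : Deg (pr (step 2 1) (res (SimplexCategory.σ 0) (res (SimplexCategory.σ 0) v))) := by
      rw [res_res, e1, ← res_res]
      apply deg_pr_σ _ _ (step 1 1)
      ext a; fin_cases a <;> rfl
    have d2 : Deg (pr (step 2 2) (res (SimplexCategory.σ 1) (res (SimplexCategory.σ 0) v))) := by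
      rw [res_res, ← e1, ← res_res]
      apply deg_pr_σ _ _ (step 1 1)
      ext a; fin_cases a <;> rfl
    show (toCoc H).v _ + (toCoc H).v _ = 0
    rw [(toCoc H).deg _ d1, (toCoc H).deg _ d2, add_zero]
  · intro x
    exact prism_one (toCoc H) x

/-- Two maps to `KK p` are homotopic iff their cocycles agree on relative cycles. -/
theorem htp_iff {p : ℕ} (hp : PrismProp p) (f g : W ⟶ KK p) :
    Htp f g ↔ ∀ z ∈ Zt W p, ev (toCoc f).v z = ev (toCoc g).v z := by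
  constructor
  · exact hp W f g
  · intro h
    have h1 : ∀ z ∈ Zt W p, ev (fun x => (toCoc f).v x + (toCoc g).v x) z = 0 := by
      intro z hz
      rw [ev_add_eq_zero, h z hz]
      exact two_smul_ch _
    obtain ⟨ψ, hψ, h2⟩ := exists_coboundary _ h1
    exact htp_of_cob f g ψ hψ h2

end classify

end Pool.Agent.W2helper51.HSC
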