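import Mathlib
import Pool.Agent.W2helper51.HSC.Walk

set_option autoImplicit false

/-!
# Attaching walks to the skeleton

From a simplicial set `W`, a spanning tree in degree `p + 1` and a family of walks we construct
a simplicial set over `W`: its simplices are simplices of `W` with labels on the `p`-dimensional
and on the `(p+1)`-dimensional faces.
-/

open CategoryTheory Opposite Simplicial

namespace Pool.Agent.W2helper51.HSC

/-- A simplex of `W` with labels on its faces of dimension `p` and `p + 1`. -/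
structure Big (W : SSet.{0}) (p : ℕ) (Lab : Type) (X : SimplexCategory) : Type where
  /-- the simplex -/
  w : W.obj (op X)
  /-- labels in dimension `p` -/
  l : (⦋p⦌ ⟶ X) → Option Lab
  /-- labels in dimension `p + 1` -/
  h : (⦋p + 1⦌ ⟶ X) → Option Lab

namespace Big

variable {W : SSet.{0}} {p : ℕ} {Lab : Type}

theorem ext' {X : SimplexCategory} {a b : Big W p Lab X} (h1 : a.w = b.w)
    (h2 : ∀ γ, a.l γ = b.l γ) (h3 : ∀ γ, a.h γ = b.h γ) : a = b := by
  obtain ⟨w, l, h⟩ := a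
  obtain ⟨w', l', h'⟩ := b
  have e2 : l = l' := funext h2
  have e3 : h = h' := funext h3
  dsimp only at h1
  subst h1 e2 e3
  rfl

/-- Restriction. -/
def map {X Y : SimplexCategory} (f : Y ⟶ X) (x : Big W p Lab X) : Big W p Lab Y :=
  ⟨W.map f.op x.w, fun γ => x.l (γ ≫ f), fun γ => x.h (γ ≫ f)⟩

theorem map_id {X : SimplexCategory} (x : Big W p Lab X) : map (𝟙 X) x = x := by
  apply ext'
  · simp [map]
  · intro γ
    simp only [map, Category.comp_id]
  · intro γ
    simp only [map, Category.comp_id]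

theorem map_map {X Y Z : SimplexCategory} (f : Y ⟶ X) (g : Z ⟶ Y) (x : Big W p Lab X) :
    map g (map f x) = map (g ≫ f) x := by
  apply ext'
  · simp [map]
  · intro γ
    simp only [map, Category.assoc]
  · intro γ
    simp only [map, Category.assoc]

/-- The simplex with no labels. -/
def un (Lab : Type) {X : SimplexCategory} (w : W.obj (op X)) : Big W p Lab X :=
  ⟨w, fun _ => none, fun _ => none⟩

theorem map_un {X Y : SimplexCategory} (f : Y ⟶ X) (w : W.obj (op X)) :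
    map f (un (p := p) Lab w) = un Lab (W.map f.op w) := rfl

end Big

/-- The data of the construction: a tree and a family of walks. -/
structure Att (W : SSet.{0}) (p : ℕ) where
  /-- the tree -/
  t : Tree W p
  /-- the index set of the walks -/
  ι : Type
  /-- the walks -/
  wd : ι → WD W p

namespace Att

variable {W : SSet.{0}} {p : ℕ} (A : Att W p)

/-- labels -/
abbrev Lab : Type := A.ι × ℕ

open Classical in
/-- The labels of the faces of a cell. -/
noncomputable def lab (j : A.ι) (k : ℕ) (γ : (⦋p⦌ : SimplexCategory) ⟶ ⦋p + 1⦌) : Option A.Lab :=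
  if 0 < k ∧ γ = SimplexCategory.δ ((A.wd j).i k) then some (j, k)
  else if k < (A.wd j).r ∧ γ = SimplexCategory.δ ((A.wd j).o k) then some (j, k + 1)
  else none

open Classical in
/-- The cells. -/
noncomputable def cell (j : A.ι) (k : ℕ) : Big W p A.Lab ⦋p + 1⦌ where
  w := (A.wd j).ρ k
  l := A.lab j k
  h := fun γ => if γ = 𝟙 _ then some (j, k) else none

/-- Membership in the simplicial set. -/
def In (X : SimplexCategory) (x : Big W p A.Lab X) : Prop :=
  (∃ (w : Sx W p) (f : X ⟶ ⦋p⦌), x = Big.map f (Big.un A.Lab w)) ∨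
  (∃ (s : A.t.T) (f : X ⟶ ⦋p + 1⦌), x = Big.map f (Big.un A.Lab (A.t.tr s))) ∨
  (∃ (j : A.ι) (k : ℕ) (_ : k ≤ (A.wd j).r) (f : X ⟶ ⦋p + 1⦌), x = Big.map f (A.cell j k))

theorem In.map {X Y : SimplexCategory} (g : Y ⟶ X) {x : Big W p A.Lab X} (hx : A.In X x) :
    A.In Y (Big.map g x) := by
  rcases hx with ⟨w, f, rfl⟩ | ⟨s, f, rfl⟩ | ⟨j, k, hk, f, rfl⟩
  · exact Or.inl ⟨w, g ≫ f, Big.map_map _ _ _⟩
  · exact Or.inr (Or.inl ⟨s, g ≫ f, Big.map_map _ _ _⟩)
  · exact Or.inr (Or.inr ⟨j, k, hk, g ≫ f, Big.map_map _ _ _⟩)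

/-- The simplicial set obtained by attaching the walks. -/
def V : SSet.{0} where
  obj X := {x : Big W p A.Lab X.unop // A.In X.unop x}
  map f := ↾fun x => ⟨Big.map f.unop x.1, In.map A f.unop x.2⟩
  map_id X := by
    ext x
    exact Big.map_id x.1
  map_comp {X Y Z} f g := by
    ext x
    exact (Big.map_map _ _ x.1).symm

/-- The underlying labelled simplex. -/
def und {m : ℕ} (x : Sx A.V m) : Big W p A.Lab ⦋m⦌ :=
  Subtype.val (p := fun y => A.In ⦋m⦌ y) x

theorem und_in {m : ℕ} (x : Sx A.V m) : A.In ⦋m⦌ (A.und x) :=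
  Subtype.property (p := fun y => A.In ⦋m⦌ y) x

theorem und_inj {m : ℕ} {x y : Sx A.V m} (h : A.und x = A.und y) : x = y :=
  Subtype.ext (p := fun y => A.In ⦋m⦌ y) h

theorem und_res {m k : ℕ} (α : ⦋m⦌ ⟶ ⦋k⦌) (x : Sx A.V k) :
    A.und (res α x) = Big.map α (A.und x) := rfl

/-- The simplex of a labelled simplex. -/
def toV {m : ℕ} (x : Big W p A.Lab ⦋m⦌) (hx : A.In ⦋m⦌ x) : Sx A.V m :=
  (⟨x, hx⟩ : {y : Big W p A.Lab ⦋m⦌ // A.In ⦋m⦌ y})

@[simp] theorem und_toV {m : ℕ} (x : Big W p A.Lab ⦋m⦌) (hx : A.In ⦋m⦌ x) :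
    A.und (A.toV x hx) = x := rfl

/-- The projection to `W`. -/
def g : A.V ⟶ W where
  app X := ↾fun x => Big.w (Subtype.val (p := fun y => A.In X.unop y) x)
  naturality X Y f := by
    ext x
    rfl

theorem ap_g {m : ℕ} (x : Sx A.V m) : ap A.g x = (A.und x).w := rfl

/-- the tree simplices -/
def treeS (s : A.t.T) : Sx A.V (p + 1) :=
  A.toV (Big.un A.Lab (A.t.tr s)) (Or.inr (Or.inl ⟨s, 𝟙 _, (Big.map_id _).symm⟩))

/-- the cells -/
noncomputable def cellS (j : A.ι) (k : ℕ) (hk : k ≤ (A.wd j).r) : Sx A.V (p + 1) :=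
  A.toV (A.cell j k) (Or.inr (Or.inr ⟨j, k, hk, 𝟙 _, (Big.map_id _).symm⟩))

/-- For `m ≤ p` there are maps `⦋m⦌ ⟶ ⦋p⦌ ⟶ ⦋m⦌` with composite the identity. -/
theorem exists_retract {m p : ℕ} (h : m ≤ p) :
    ∃ (f : (⦋m⦌ : SimplexCategory) ⟶ ⦋p⦌) (s : (⦋p⦌ : SimplexCategory) ⟶ ⦋m⦌), f ≫ s = 𝟙 _ := by
  refine ⟨SimplexCategory.mkHom ⟨fun a => ⟨a.val, by have := a.2; omega⟩, fun a b hab => hab⟩,
    SimplexCategory.mkHom ⟨fun a => ⟨min a.val m, by omega⟩, fun a b hab => ?_⟩, ?_⟩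
  · have : a.val ≤ b.val := hab
    show min a.val m ≤ min b.val m
    omega
  · ext a
    have : a.val < m + 1 := a.2
    show min a.val m = a.val
    exact min_eq_left (by omega)

theorem in_un {m : ℕ} (h : m ≤ p) (w : Sx W m) : A.In ⦋m⦌ (Big.un A.Lab w) := by
  obtain ⟨f, s, hfs⟩ := exists_retract h
  refine Or.inl ⟨res s w, f, ?_⟩
  rw [Big.map_un]
  congr 1
  have : res f (res s w) = w := by rw [res_res, hfs, res_id]
  exact this.symm

/-- The unlabelled simplices of dimension at most `p`. -/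
def inc {m : ℕ} (h : m ≤ p) (w : Sx W m) : Sx A.V m := A.toV (Big.un A.Lab w) (A.in_un h w)

theorem res_inc {m k : ℕ} (α : ⦋m⦌ ⟶ ⦋k⦌) (hm : m ≤ p) (hk : k ≤ p) (w : Sx W k) :
    res α (A.inc hk w) = A.inc hm (res α w) := rfl

theorem deg_inc {m : ℕ} (h : m ≤ p) {w : Sx W m} (hw : Deg w) : Deg (A.inc h w) := by
  obtain ⟨k, hk, α, y, rfl⟩ := hw
  exact ⟨k, hk, α, A.inc (by omega) y, rfl⟩

theorem mono_δ (i : Fin (p + 2)) : Mono (SimplexCategory.δ i : (⦋p⦌ : SimplexCategory) ⟶ _) :=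
  inferInstance

theorem not_mono {m k : ℕ} (h : m < k) (α : (⦋k⦌ : SimplexCategory) ⟶ ⦋m⦌) : ¬ Mono α := by
  intro hα
  have := SimplexCategory.len_le_of_mono α
  simp at this
  omega

theorem lab_mono {j : A.ι} {k : ℕ} {γ : (⦋p⦌ : SimplexCategory) ⟶ ⦋p + 1⦌}
    (h : A.lab j k γ ≠ none) : Mono γ := by
  unfold lab at h
  split_ifs at h with h1 h2
  · rw [h1.2]
    infer_instance
  · rw [h2.2]
    infer_instance
  · exact absurd rfl h

/-- Labels of non-injective faces are trivial (dimension `p`). -/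
theorem l_eq_none {m k : ℕ} (x : Sx A.V m) (hk : k < p) (α : (⦋p⦌ : SimplexCategory) ⟶ ⦋k⦌)
    (β : (⦋k⦌ : SimplexCategory) ⟶ ⦋m⦌) : (A.und x).l (α ≫ β) = none := by
  rcases A.und_in x with ⟨w, f, h⟩ | ⟨s, f, h⟩ | ⟨j, i, hi, f, h⟩
  · rw [h]; rfl
  · rw [h]; rfl
  · rw [h]
    by_contra hcon
    have h1 : Mono ((α ≫ β) ≫ f) := A.lab_mono hcon
    rw [Category.assoc] at h1
    have h2 : Mono α := mono_of_mono α (β ≫ f)
    exact not_mono hk α h2

/-- Labels of non-injective faces are trivial (dimension `p + 1`). -/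
theorem h_eq_none {m k : ℕ} (x : Sx A.V m) (hk : k < p + 1)
    (α : (⦋p + 1⦌ : SimplexCategory) ⟶ ⦋k⦌)
    (β : (⦋k⦌ : SimplexCategory) ⟶ ⦋m⦌) : (A.und x).h (α ≫ β) = none := by
  classical
  rcases A.und_in x with ⟨w, f, h⟩ | ⟨s, f, h⟩ | ⟨j, i, hi, f, h⟩
  · rw [h]; rfl
  · rw [h]; rfl
  · rw [h]
    change (if (α ≫ β) ≫ f = 𝟙 _ then some (j, i) else none) = none
    rw [if_neg]
    intro hcon
    have h1 : Mono ((α ≫ β) ≫ f) := by rw [hcon]; infer_instance
    rw [Category.assoc] at h1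
    have h2 : Mono α := mono_of_mono α (β ≫ f)
    exact not_mono hk α h2

theorem l_deg {x : Sx A.V p} (hx : Deg x) : (A.und x).l (𝟙 _) = none := by
  obtain ⟨m, hm, α, y, rfl⟩ := hx
  have := A.l_eq_none y hm α (𝟙 _)
  rw [Category.comp_id] at this
  rw [und_res]
  change (A.und y).l (𝟙 _ ≫ α) = none
  rwa [Category.id_comp]

theorem h_deg {x : Sx A.V (p + 1)} (hx : Deg x) : (A.und x).h (𝟙 _) = none := by
  obtain ⟨m, hm, α, y, rfl⟩ := hx
  have := A.h_eq_none y hm α (𝟙 _)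
  rw [Category.comp_id] at this
  rw [und_res]
  change (A.und y).h (𝟙 _ ≫ α) = none
  rwa [Category.id_comp]

/-- The simplices of dimension `p + 1`. -/
theorem cases_top (x : Sx A.V (p + 1)) :
    Deg x ∨ (∃ s, x = A.treeS s) ∨ ∃ j k hk, x = A.cellS j k hk := by
  rcases A.und_in x with ⟨w, f, h⟩ | ⟨s, f, h⟩ | ⟨j, k, hk, f, h⟩
  · left
    exact ⟨p, Nat.lt_succ_self p, f, A.inc le_rfl w, A.und_inj h⟩
  · by_cases hf : f = 𝟙 _
    · right; left
      subst hf
      refine ⟨s, A.und_inj ?_⟩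
      rw [h, Big.map_id]
      rfl
    · left
      have : x = res f (A.treeS s) := A.und_inj h
      rw [this]
      exact deg_of_ne_id hf _
  · by_cases hf : f = 𝟙 _
    · right; right
      subst hf
      refine ⟨j, k, hk, A.und_inj ?_⟩
      rw [h, Big.map_id]
      rfl
    · left
      have : x = res f (A.cellS j k hk) := A.und_inj h
      rw [this]
      exact deg_of_ne_id hf _

theorem deg_high (x : Sx A.V (p + 2)) : Deg x := by
  rcases A.und_in x with ⟨w, f, h⟩ | ⟨s, f, h⟩ | ⟨j, k, hk, f, h⟩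
  · exact ⟨p, by omega, f, A.inc le_rfl w, A.und_inj h⟩
  · exact ⟨p + 1, by omega, f, A.treeS s, A.und_inj h⟩
  · exact ⟨p + 1, by omega, f, A.cellS j k hk, A.und_inj h⟩

end Att

end Pool.Agent.W2helper51.HSC
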