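import Mathlib
import Pool.Agent.W2helper51.HSC.Attach

set_option autoImplicit false

/-!
# The homology of the simplicial set obtained by attaching walks
-/

open CategoryTheory Opposite Simplicial

namespace Pool.Agent.W2helper51.HSC

theorem δ_inj {n : ℕ} {i j : Fin (n + 2)}
    (h : (SimplexCategory.δ i : (⦋n⦌ : SimplexCategory) ⟶ _) = SimplexCategory.δ j) : i = j := by
  have h1 : ∀ a : Fin (n + 1), i.succAbove a = j.succAbove a := by
    intro a
    exact congrArg (fun f => (f.toOrderHom : Fin (n + 1) → Fin (n + 2)) a) h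
  exact Fin.succAbove_left_injective (funext h1)

theorem sum_tele {M : Type} [AddCommGroup M] [Module F2 M] (f : ℕ → M) (n : ℕ) :
    ∑ k ∈ Finset.range n, (f k + f (k + 1)) = f 0 + f n := by
  induction n with
  | zero =>
    rw [Finset.range_zero, Finset.sum_empty]
    exact (two_smul_ch (f 0)).symm
  | succ n ih =>
    rw [Finset.sum_range_succ, ih]
    have h := two_smul_ch (f n)
    calc f 0 + f n + (f n + f (n + 1)) = f 0 + (f n + f n) + f (n + 1) := by abel
      _ = f 0 + f (n + 1) := by rw [h, add_zero]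

namespace Att

open Classical

variable {W : SSet.{0}} {p : ℕ} (A : Att W p)

/-- indicator of a label in dimension `p` -/
noncomputable def lam (a : A.Lab) (x : Sx A.V p) : F2 :=
  if (A.und x).l (𝟙 _) = some a then 1 else 0

/-- indicator of a label in dimension `p + 1` -/
noncomputable def mu (a : A.Lab) (x : Sx A.V (p + 1)) : F2 :=
  if (A.und x).h (𝟙 _) = some a then 1 else 0

theorem lam_deg (a : A.Lab) {x : Sx A.V p} (hx : Deg x) : A.lam a x = 0 := by
  unfold lam
  rw [A.l_deg hx, if_neg (by simp)]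

theorem mu_deg (a : A.Lab) {x : Sx A.V (p + 1)} (hx : Deg x) : A.mu a x = 0 := by
  unfold mu
  rw [A.h_deg hx, if_neg (by simp)]

theorem mu_tree (a : A.Lab) (s : A.t.T) : A.mu a (A.treeS s) = 0 := by
  unfold mu
  exact if_neg (by simp [treeS, Big.un])

theorem h_cell (j : A.ι) (k : ℕ) (hk : k ≤ (A.wd j).r) :
    (A.und (A.cellS j k hk)).h (𝟙 _) = some (j, k) := by
  change (if 𝟙 _ = 𝟙 _ then some (j, k) else none) = some (j, k)
  rw [if_pos rfl]

theorem mu_cell (a : A.Lab) (j : A.ι) (k : ℕ) (hk : k ≤ (A.wd j).r) :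
    A.mu a (A.cellS j k hk) = if (j, k) = a then 1 else 0 := by
  unfold mu
  rw [A.h_cell]
  simp only [Option.some.injEq]

theorem lam_face (a : A.Lab) (j : A.ι) (k : ℕ) (hk : k ≤ (A.wd j).r) (i : Fin (p + 2)) :
    A.lam a (res (SimplexCategory.δ i) (A.cellS j k hk)) =
      if A.lab j k (SimplexCategory.δ i) = some a then 1 else 0 := by
  unfold lam
  rw [und_res]
  change (if A.lab j k (𝟙 _ ≫ SimplexCategory.δ i) = some a then (1 : F2) else 0) = _
  rw [Category.id_comp]

theorem lab_δ (j : A.ι) (k : ℕ) (i : Fin (p + 2)) :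
    A.lab j k (SimplexCategory.δ i) =
      if 0 < k ∧ i = (A.wd j).i k then some (j, k)
      else if k < (A.wd j).r ∧ i = (A.wd j).o k then some (j, k + 1)
      else none := by
  unfold lab
  have h : ∀ i' : Fin (p + 2), (SimplexCategory.δ i : (⦋p⦌ : SimplexCategory) ⟶ _) =
      SimplexCategory.δ i' ↔ i = i' := fun i' => ⟨δ_inj, fun h => by rw [h]⟩
  simp only [h]

theorem lam_sum (j : A.ι) (k : ℕ) (hk : k < (A.wd j).r) (x : Sx A.V (p + 1)) :
    ∑ i : Fin (p + 2), A.lam (j, k + 1) (res (SimplexCategory.δ i) x) =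
      A.mu (j, k) x + A.mu (j, k + 1) x := by
  rcases A.cases_top x with hx | ⟨s, rfl⟩ | ⟨j', k', hk', rfl⟩
  · rw [A.mu_deg _ hx, A.mu_deg _ hx, add_zero]
    obtain ⟨b, y, rfl⟩ := hx.exists_σ
    exact sum_deg _ (A.lam (j, k + 1)) (fun _ h => A.lam_deg _ h) b y
  · rw [A.mu_tree, A.mu_tree, add_zero]
    apply Finset.sum_eq_zero
    intro i _
    unfold lam
    exact if_neg (by
      rw [und_res]
      simp [treeS, Big.un, Big.map])
  · rw [A.mu_cell, A.mu_cell]
    simp only [lam_face, lab_δ]
    have hne := (A.wd j').ne k'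
    have key : ∀ i : Fin (p + 2),
        (if (if 0 < k' ∧ i = (A.wd j').i k' then some (j', k')
          else if k' < (A.wd j').r ∧ i = (A.wd j').o k' then some (j', k' + 1)
          else none) = some (j, k + 1) then (1 : F2) else 0) =
        (if i = (A.wd j').i k' then (if (j', k') = (j, k + 1) then (1 : F2) else 0) else 0) +
        (if i = (A.wd j').o k' then (if (j', k') = (j, k) then (1 : F2) else 0) else 0) := by
      intro i
      by_cases h1 : i = (A.wd j').i k'
      · have h2 : i ≠ (A.wd j').o k' := by rw [h1]; exact hne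
        by_cases h3 : 0 < k'
        · have e : (if 0 < k' ∧ i = (A.wd j').i k' then some (j', k')
              else if k' < (A.wd j').r ∧ i = (A.wd j').o k' then some (j', k' + 1)
              else none) = some (j', k') := if_pos ⟨h3, h1⟩
          rw [e, if_pos h1, if_neg h2, add_zero]
          simp only [Option.some.injEq]
        · have e : (if 0 < k' ∧ i = (A.wd j').i k' then some (j', k')
              else if k' < (A.wd j').r ∧ i = (A.wd j').o k' then some (j', k' + 1)
              else none) = none := by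
            rw [if_neg (fun h => h3 h.1), if_neg (fun h => h2 h.2)]
          have h4 : (j', k') ≠ (j, k + 1) := by
            intro h
            have := congrArg Prod.snd h
            simp only at this
            omega
          rw [e, if_pos h1, if_neg h2, if_neg h4, if_neg (by simp), add_zero]
      · by_cases h2 : i = (A.wd j').o k'
        · by_cases h3 : k' < (A.wd j').r
          · have e : (if 0 < k' ∧ i = (A.wd j').i k' then some (j', k')
                else if k' < (A.wd j').r ∧ i = (A.wd j').o k' then some (j', k' + 1)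
                else none) = some (j', k' + 1) := by
              rw [if_neg (fun h => h1 h.2), if_pos ⟨h3, h2⟩]
            rw [e, if_neg h1, if_pos h2, zero_add]
            simp only [Option.some.injEq, Prod.mk.injEq, Nat.succ_inj]
          · have e : (if 0 < k' ∧ i = (A.wd j').i k' then some (j', k')
                else if k' < (A.wd j').r ∧ i = (A.wd j').o k' then some (j', k' + 1)
                else none) = none := by
              rw [if_neg (fun h => h1 h.2), if_neg (fun h => h3 h.1)]
            have h4 : (j', k') ≠ (j, k) := by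
              intro h
              obtain ⟨h5, h6⟩ := Prod.mk.inj h
              subst h5 h6
              exact h3 hk
            rw [e, if_neg h1, if_pos h2, if_neg h4, if_neg (by simp), add_zero]
        · have e : (if 0 < k' ∧ i = (A.wd j').i k' then some (j', k')
              else if k' < (A.wd j').r ∧ i = (A.wd j').o k' then some (j', k' + 1)
              else none) = none := by
            rw [if_neg (fun h => h1 h.2), if_neg (fun h => h2 h.2)]
          rw [e, if_neg h1, if_neg h2, if_neg (by simp), add_zero]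
    rw [Finset.sum_congr rfl (fun i _ => key i), Finset.sum_add_distrib,
      Finset.sum_ite_eq' Finset.univ, Finset.sum_ite_eq' Finset.univ, if_pos (Finset.mem_univ _),
      if_pos (Finset.mem_univ _), add_comm]

/-- The number of the walks in a chain. -/
noncomputable def val (x : Sx A.V (p + 1)) : A.ι →₀ F2 :=
  match (A.und x).h (𝟙 _) with
  | some (j, 0) => Finsupp.single j 1
  | _ => 0

theorem val_apply (x : Sx A.V (p + 1)) (j : A.ι) : A.val x j = A.mu (j, 0) x := by
  unfold val mu
  rcases h : (A.und x).h (𝟙 _) with _ | ⟨j', k'⟩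
  · simp
  · cases k' with
    | zero =>
      simp only [Option.some.injEq, Prod.mk.injEq, and_true]
      exact Finsupp.single_apply
    | succ k' => simp

/-- The number of walks in a chain, as a linear map. -/
noncomputable def PP : Ch A.V (p + 1) →ₗ[F2] (A.ι →₀ F2) := Finsupp.linearCombination F2 A.val

@[simp] theorem PP_sg (x : Sx A.V (p + 1)) : A.PP (sg x) = A.val x := by
  simp [PP, sg]

theorem PP_apply (c : Ch A.V (p + 1)) (j : A.ι) : A.PP c j = ev (A.mu (j, 0)) c := by
  induction c using ch_induction with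
  | h0 => simp
  | hadd a b ha hb => simp only [map_add, Finsupp.add_apply, ha, hb]
  | hs x => rw [PP_sg, val_apply, ev_sg]

theorem eq_cell_iff (j : A.ι) (k : ℕ) (hk : k ≤ (A.wd j).r) (x : Sx A.V (p + 1)) :
    x = A.cellS j k hk ↔ (A.und x).h (𝟙 _) = some (j, k) := by
  constructor
  · rintro rfl
    exact A.h_cell j k hk
  · intro h
    rcases A.cases_top x with hx | ⟨s, rfl⟩ | ⟨j', k', hk', rfl⟩
    · rw [A.h_deg hx] at h
      exact absurd h (by simp)
    · exact absurd h (by simp [treeS, Big.un])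
    · rw [A.h_cell] at h
      have h1 := Option.some.inj h
      obtain ⟨h2, h3⟩ := Prod.mk.inj h1
      subst h2 h3
      rfl

theorem coeff_cell (j : A.ι) (k : ℕ) (hk : k ≤ (A.wd j).r) (c : Ch A.V (p + 1)) :
    c (A.cellS j k hk) = ev (A.mu (j, k)) c := by
  induction c using ch_induction with
  | h0 => simp
  | hadd a b ha hb => simp only [map_add, Finsupp.add_apply, ha, hb]
  | hs x =>
    rw [ev_sg]
    unfold mu sg
    rw [Finsupp.single_apply]
    simp only [A.eq_cell_iff j k hk x]

theorem mu_zt {z : Ch A.V (p + 1)} (hz : z ∈ Zt A.V p) (j : A.ι) (k : ℕ)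
    (hk : k ≤ (A.wd j).r) : ev (A.mu (j, k)) z = ev (A.mu (j, 0)) z := by
  induction k with
  | zero => rfl
  | succ k ih =>
    rw [← ih (by omega)]
    have h1 : ev (fun x => ∑ i : Fin (p + 2), A.lam (j, k + 1) (res (SimplexCategory.δ i) x)) z =
        ev (A.lam (j, k + 1)) (bd A.V p z) := by
      clear hz ih
      induction z using ch_induction with
      | h0 => simp
      | hadd c d hc hd => simp only [map_add, hc, hd]
      | hs x => simp
    have h2 : ev (A.lam (j, k + 1)) (bd A.V p z) = 0 := by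
      have : DD A.V p ≤ LinearMap.ker (ev (A.lam (j, k + 1))) := by
        unfold DD
        rw [Submodule.span_le]
        rintro _ ⟨x, hx, rfl⟩
        simp [A.lam_deg _ hx]
      exact this hz
    rw [h2] at h1
    have h3 : (fun x => ∑ i : Fin (p + 2), A.lam (j, k + 1) (res (SimplexCategory.δ i) x)) =
        fun x => A.mu (j, k) x + A.mu (j, k + 1) x := funext (A.lam_sum j k (by omega))
    rw [h3] at h1
    have h4 : ev (fun x => A.mu (j, k) x + A.mu (j, k + 1) x) z =
        ev (A.mu (j, k)) z + ev (A.mu (j, k + 1)) z := by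
      clear hz h1 h2 ih
      induction z using ch_induction with
      | h0 => simp
      | hadd c d hc hd =>
        simp only [map_add, hc, hd]
        abel
      | hs x => simp
    rw [h4] at h1
    have h5 : ∀ a b : F2, a + b = 0 → b = a := by decide
    exact h5 _ _ h1

/-- chains on the tree in `V` -/
noncomputable def L' : (A.t.T →₀ F2) →ₗ[F2] Ch A.V (p + 1) :=
  Finsupp.linearCombination F2 (fun s => sg (A.treeS s))

theorem pf_L' (c : A.t.T →₀ F2) : pf A.g (p + 1) (A.L' c) = A.t.L c := by
  have : (pf A.g (p + 1) ∘ₗ A.L') = A.t.L := by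
    apply Finsupp.lhom_ext'
    intro s
    apply LinearMap.ext_ring
    simp only [LinearMap.comp_apply, Finsupp.lsingle_apply, L', Tree.L,
      Finsupp.linearCombination_single, one_smul, pf_sg]
    rfl
  exact congrArg (fun l => l c) this

theorem mem_DD_of_PP {z : Ch A.V (p + 1)} (hz : z ∈ Zt A.V p) (h : A.PP z = 0) :
    z ∈ DD A.V (p + 1) := by
  have h1 : ∀ (j : A.ι) (k : ℕ) (hk : k ≤ (A.wd j).r), z (A.cellS j k hk) = 0 := by
    intro j k hk
    rw [A.coeff_cell, A.mu_zt hz j k hk, ← A.PP_apply, h]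
    rfl
  have h2 : z ∈ DD A.V (p + 1) ⊔ LinearMap.range A.L' := by
    rw [← Finsupp.sum_single z]
    apply Submodule.sum_mem
    intro x hx
    have hx' : z x ≠ 0 := Finsupp.mem_support_iff.1 hx
    have h3 : (Finsupp.single x (z x) : Ch A.V (p + 1)) = (z x) • sg x := by
      simp [sg]
    show (Finsupp.single x (z x) : Ch A.V (p + 1)) ∈ _
    rw [h3]
    apply Submodule.smul_mem
    rcases A.cases_top x with hd | ⟨s, rfl⟩ | ⟨j, k, hk, rfl⟩
    · exact Submodule.mem_sup_left (sg_mem_DD hd)
    · refine Submodule.mem_sup_right ⟨Finsupp.single s 1, ?_⟩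
      simp [L']
    · exact absurd (h1 j k hk) hx'
  obtain ⟨d, hd, _, ⟨c, rfl⟩, rfl⟩ := Submodule.mem_sup.1 h2
  have h3 : A.L' c ∈ Zt A.V p := by
    have h4 : d ∈ Zt A.V p := bd_mem_DD A.V hd
    have := Submodule.sub_mem _ hz h4
    rwa [add_sub_cancel_left] at this
  have h5 : A.t.L c ∈ Zt W p := by
    have := pf_Zt A.g h3
    rwa [A.pf_L'] at this
  have h6 : c = 0 := A.t.li c h5
  rw [h6, map_zero, add_zero]
  exact hd

theorem PP_Bt {z : Ch A.V (p + 1)} (hz : z ∈ Bt A.V p) : A.PP z = 0 := by
  have h1 : ∀ c ∈ DD A.V (p + 1), A.PP c = 0 := by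
    intro c hc
    ext j
    rw [A.PP_apply]
    have : DD A.V (p + 1) ≤ LinearMap.ker (ev (A.mu (j, 0))) := by
      unfold DD
      rw [Submodule.span_le]
      rintro _ ⟨x, hx, rfl⟩
      simp [A.mu_deg _ hx]
    exact this hc
  obtain ⟨a, ha, _, ⟨d, rfl⟩, rfl⟩ := Submodule.mem_sup.1 hz
  rw [map_add, h1 a ha, zero_add]
  apply h1
  apply bd_mem_DD
  clear hz
  induction d using ch_induction with
  | h0 => exact Submodule.zero_mem _
  | hadd a b ha hb => exact Submodule.add_mem _ ha hb
  | hs x => exact sg_mem_DD (A.deg_high x)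

/-- inclusion of unlabelled chains -/
noncomputable def I : Ch W p →ₗ[F2] Ch A.V p := Finsupp.lmapDomain F2 F2 (A.inc le_rfl)

@[simp] theorem I_sg (w : Sx W p) : A.I (sg w) = sg (A.inc le_rfl w) := by
  simp [I, sg]

theorem I_DD {c : Ch W p} (hc : c ∈ DD W p) : A.I c ∈ DD A.V p := by
  have : DD W p ≤ (DD A.V p).comap A.I := by
    conv_lhs => unfold DD
    rw [Submodule.span_le]
    rintro _ ⟨x, hx, rfl⟩
    change A.I (sg x) ∈ DD A.V p
    rw [I_sg]
    exact sg_mem_DD (A.deg_inc le_rfl hx)
  exact this hc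

theorem bd_L' (c : A.t.T →₀ F2) : bd A.V p (A.L' c) = A.I (bd W p (A.t.L c)) := by
  have : (bd A.V p ∘ₗ A.L') = (A.I ∘ₗ bd W p ∘ₗ A.t.L) := by
    apply Finsupp.lhom_ext'
    intro s
    apply LinearMap.ext_ring
    simp only [LinearMap.comp_apply, Finsupp.lsingle_apply, L', Tree.L,
      Finsupp.linearCombination_single, one_smul, bd_sg, map_sum, I_sg]
    rfl
  exact congrArg (fun l => l c) this

theorem lab_comp (j : A.ι) (k : ℕ) (i : Fin (p + 2)) (γ : (⦋p⦌ : SimplexCategory) ⟶ ⦋p⦌)
    (hγ : γ ≠ 𝟙 _) : A.lab j k (γ ≫ SimplexCategory.δ i) = none := by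
  by_contra h
  have h1 := A.lab_mono h
  have h2 : Mono γ := mono_of_mono γ (SimplexCategory.δ i)
  exact hγ (SimplexCategory.eq_id_of_mono γ)

theorem h_face (j : A.ι) (k : ℕ) (i : Fin (p + 2)) (γ : (⦋p + 1⦌ : SimplexCategory) ⟶ ⦋p⦌) :
    (A.cell j k).h (γ ≫ SimplexCategory.δ i) = none := by
  change (if γ ≫ SimplexCategory.δ i = 𝟙 _ then some (j, k) else none) = none
  rw [if_neg]
  intro hcon
  have h1 : Mono (γ ≫ SimplexCategory.δ i) := by rw [hcon]; infer_instance
  have h2 : Mono γ := mono_of_mono γ (SimplexCategory.δ i)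
  exact not_mono (Nat.lt_succ_self p) γ h2

theorem face_unl (j : A.ι) (k : ℕ) (hk : k ≤ (A.wd j).r) (i : Fin (p + 2))
    (h : A.lab j k (SimplexCategory.δ i) = none) :
    res (SimplexCategory.δ i) (A.cellS j k hk) =
      A.inc le_rfl (res (SimplexCategory.δ i) ((A.wd j).ρ k)) := by
  apply A.und_inj
  rw [und_res]
  apply Big.ext'
  · rfl
  · intro γ
    change A.lab j k (γ ≫ SimplexCategory.δ i) = none
    by_cases hγ : γ = 𝟙 _
    · subst hγ
      rw [Category.id_comp]
      exact h
    · exact A.lab_comp j k i γ hγ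
  · intro γ
    exact A.h_face j k i γ

theorem face_glue (j : A.ι) (k : ℕ) (hk : k < (A.wd j).r) :
    res (SimplexCategory.δ ((A.wd j).o k)) (A.cellS j k hk.le) =
      res (SimplexCategory.δ ((A.wd j).i (k + 1))) (A.cellS j (k + 1) hk) := by
  apply A.und_inj
  rw [und_res, und_res]
  apply Big.ext'
  · exact (A.wd j).glue k hk
  · intro γ
    change A.lab j k (γ ≫ SimplexCategory.δ _) = A.lab j (k + 1) (γ ≫ SimplexCategory.δ _)
    by_cases hγ : γ = 𝟙 _
    · subst hγ
      rw [Category.id_comp, Category.id_comp, A.lab_δ, A.lab_δ]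
      rw [if_neg (fun h => (A.wd j).ne k h.2.symm), if_pos ⟨hk, rfl⟩,
        if_pos ⟨Nat.succ_pos k, rfl⟩]
    · rw [A.lab_comp j k _ γ hγ, A.lab_comp j (k + 1) _ γ hγ]
  · intro γ
    change (A.cell j k).h _ = (A.cell j (k + 1)).h _
    rw [A.h_face, A.h_face]

/-- The difference between a face of a cell and the unlabelled face. -/
noncomputable def G (j : A.ι) (k : ℕ) (hk : k ≤ (A.wd j).r) (i : Fin (p + 2)) : Ch A.V p :=
  sg (res (SimplexCategory.δ i) (A.cellS j k hk)) +
    sg (A.inc le_rfl (res (SimplexCategory.δ i) ((A.wd j).ρ k)))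

theorem G_unl (j : A.ι) (k : ℕ) (hk : k ≤ (A.wd j).r) (i : Fin (p + 2))
    (h : A.lab j k (SimplexCategory.δ i) = none) : A.G j k hk i = 0 := by
  unfold G
  rw [A.face_unl j k hk i h]
  exact two_smul_ch _

/-- The contribution of the face through which the `k`-th cell is entered. -/
noncomputable def acc (j : A.ι) (k : ℕ) : Ch A.V p :=
  if h : 0 < k ∧ k ≤ (A.wd j).r then A.G j k h.2 ((A.wd j).i k) else 0

theorem bd_cell (j : A.ι) (k : ℕ) (hk : k ≤ (A.wd j).r) :
    bd A.V p (sg (A.cellS j k hk)) =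
      A.I (bd W p (sg ((A.wd j).ρ k))) + (A.acc j k + A.acc j (k + 1)) := by
  have hne := (A.wd j).ne k
  have h1 : ∀ i : Fin (p + 2), sg (res (SimplexCategory.δ i) (A.cellS j k hk)) =
      sg (A.inc le_rfl (res (SimplexCategory.δ i) ((A.wd j).ρ k))) + A.G j k hk i := by
    intro i
    unfold G
    have h := two_smul_ch (sg (A.inc le_rfl (res (SimplexCategory.δ i) ((A.wd j).ρ k))) :
      Ch A.V p)
    calc _ = (sg (res (SimplexCategory.δ i) (A.cellS j k hk)) : Ch A.V p) + 0 := by rw [add_zero]
      _ = _ := by rw [← h]; abel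
  have h2 : ∀ i : Fin (p + 2), A.G j k hk i =
      (if i = (A.wd j).i k then A.acc j k else 0) +
      (if i = (A.wd j).o k then A.acc j (k + 1) else 0) := by
    intro i
    by_cases h3 : i = (A.wd j).i k
    · have h4 : i ≠ (A.wd j).o k := by rw [h3]; exact hne
      rw [if_pos h3, if_neg h4, add_zero]
      unfold acc
      by_cases h5 : 0 < k
      · rw [dif_pos ⟨h5, hk⟩, h3]
      · rw [dif_neg (fun h => h5 h.1)]
        apply A.G_unl
        rw [A.lab_δ, if_neg (fun h => h5 h.1), if_neg (fun h => h4 h.2)]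
    · rw [if_neg h3, zero_add]
      by_cases h4 : i = (A.wd j).o k
      · rw [if_pos h4]
        unfold acc
        by_cases h5 : k < (A.wd j).r
        · rw [dif_pos ⟨Nat.succ_pos k, h5⟩]
          unfold G
          rw [h4, A.face_glue j k h5, (A.wd j).glue k h5]
        · rw [dif_neg (fun h => h5 h.2)]
          apply A.G_unl
          rw [A.lab_δ, if_neg (fun h => h3 h.2), if_neg (fun h => h5 h.1)]
      · rw [if_neg h4]
        apply A.G_unl
        rw [A.lab_δ, if_neg (fun h => h3 h.2), if_neg (fun h => h4 h.2)]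
  rw [bd_sg, bd_sg, Finset.sum_congr rfl (fun i _ => h1 i), Finset.sum_add_distrib, map_sum]
  simp only [I_sg]
  congr 1
  rw [Finset.sum_congr rfl (fun i _ => h2 i), Finset.sum_add_distrib,
    Finset.sum_ite_eq' Finset.univ, Finset.sum_ite_eq' Finset.univ, if_pos (Finset.mem_univ _),
    if_pos (Finset.mem_univ _)]

/-- The chain of a walk in `V`. -/
noncomputable def cs (j : A.ι) (k : ℕ) : Ch A.V (p + 1) :=
  if h : k ≤ (A.wd j).r then sg (A.cellS j k h) else 0

theorem bd_walk (j : A.ι) :
    bd A.V p (∑ k ∈ Finset.range ((A.wd j).r + 1), A.cs j k) =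
      A.I (bd W p (A.wd j).total) := by
  have h1 : ∀ k ∈ Finset.range ((A.wd j).r + 1), bd A.V p (A.cs j k) =
      A.I (bd W p (sg ((A.wd j).ρ k))) + (A.acc j k + A.acc j (k + 1)) := by
    intro k hk
    have hk' : k ≤ (A.wd j).r := by
      have := Finset.mem_range.1 hk
      omega
    unfold cs
    rw [dif_pos hk', A.bd_cell]
  rw [map_sum, Finset.sum_congr rfl h1, Finset.sum_add_distrib, sum_tele]
  have h2 : A.acc j 0 = 0 := by
    unfold acc
    rw [dif_neg (fun h => absurd h.1 (Nat.lt_irrefl 0))]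
  have h3 : A.acc j ((A.wd j).r + 1) = 0 := by
    unfold acc
    rw [dif_neg (fun h => absurd h.2 (Nat.not_succ_le_self _))]
  rw [h2, h3, add_zero, add_zero, WD.total, map_sum, map_sum]

theorem pf_walk (j : A.ι) :
    pf A.g (p + 1) (∑ k ∈ Finset.range ((A.wd j).r + 1), A.cs j k) = (A.wd j).total := by
  rw [map_sum, WD.total]
  refine Finset.sum_congr rfl (fun k hk => ?_)
  have hk' : k ≤ (A.wd j).r := by
    have := Finset.mem_range.1 hk
    omega
  unfold cs
  rw [dif_pos hk', pf_sg]
  rfl

theorem PP_walk (j : A.ι) :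
    A.PP (∑ k ∈ Finset.range ((A.wd j).r + 1), A.cs j k) = Finsupp.single j 1 := by
  ext j'
  rw [A.PP_apply, map_sum]
  have h1 : ∀ k ∈ Finset.range ((A.wd j).r + 1), ev (A.mu (j', 0)) (A.cs j k) =
      if k = 0 then (if j = j' then 1 else 0) else 0 := by
    intro k hk
    have hk' : k ≤ (A.wd j).r := by
      have := Finset.mem_range.1 hk
      omega
    unfold cs
    rw [dif_pos hk', ev_sg, A.mu_cell]
    by_cases h1 : k = 0 <;> by_cases h2 : j = j' <;> simp [h1, h2]
  rw [Finset.sum_congr rfl h1, Finset.sum_ite_eq' (Finset.range ((A.wd j).r + 1)),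
    if_pos (Finset.mem_range.2 (Nat.succ_pos _)), Finsupp.single_apply]

theorem PP_L' (c : A.t.T →₀ F2) : A.PP (A.L' c) = 0 := by
  have : (A.PP ∘ₗ A.L') = 0 := by
    apply Finsupp.lhom_ext'
    intro s
    apply LinearMap.ext_ring
    simp only [LinearMap.comp_apply, Finsupp.lsingle_apply, L',
      Finsupp.linearCombination_single, one_smul, PP_sg, LinearMap.zero_apply]
    ext j
    rw [A.val_apply, A.mu_tree]
    rfl
  exact congrArg (fun l => l c) this

/-- The cycle of a walk closed up by the tree. -/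
theorem exists_cycle {U : Type} [AddCommGroup U] [Module F2 U] {π : Zt W p →ₗ[F2] U}
    (j : A.ι) (u : U) (hu : Cl A.t π (A.wd j).total u) :
    ∃ y : Zt A.V p, A.PP y.1 = Finsupp.single j 1 ∧ π (pz A.g p y) = u := by
  obtain ⟨c, hc, rfl⟩ := hu
  refine ⟨⟨(∑ k ∈ Finset.range ((A.wd j).r + 1), A.cs j k) + A.L' c, ?_⟩, ?_, ?_⟩
  · change bd A.V p _ ∈ DD A.V p
    rw [map_add, A.bd_walk, A.bd_L', ← map_add, ← map_add]
    exact A.I_DD hc
  · change A.PP (_ + _) = _
    rw [map_add, A.PP_walk, A.PP_L', add_zero]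
  · congr 1
    apply Subtype.ext
    change pf A.g (p + 1) (_ + _) = _
    rw [map_add, A.pf_walk, A.pf_L']

end Att

end Pool.Agent.W2helper51.HSC
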