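import Mathlib
import Pool.Agent.W2helper51.HSC.Lift

set_option autoImplicit false

/-!
# The lifting theorem
-/

open CategoryTheory Opposite Simplicial

namespace Pool.Agent.W2helper51.HSC

namespace Att

variable {W : SSet.{0}}

theorem conn_pos {p : ℕ} (A : Att W p) (hp : 1 ≤ p) (hW : Conn W) : Conn A.V := by
  obtain ⟨⟨v⟩, hW⟩ := hW
  refine ⟨⟨A.inc (Nat.zero_le p) v⟩, ?_⟩
  intro q hq
  have h1 : ∀ x : Sx A.V 0, x = A.inc (Nat.zero_le p) (A.und x).w := by
    intro x
    apply A.und_inj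
    apply Big.ext'
    · rfl
    · intro γ
      have := A.l_eq_none x (k := 0) (by omega) γ (𝟙 _)
      rwa [Category.comp_id] at this
    · intro γ
      have := A.h_eq_none x (k := 0) (by omega) γ (𝟙 _)
      rwa [Category.comp_id] at this
  intro a b ha
  rw [h1 a] at ha
  rw [h1 b]
  refine hW (fun w => q (A.inc (Nat.zero_le p) w)) ?_ _ _ ha
  intro e
  have := hq (A.inc hp e)
  rwa [A.res_inc _ (Nat.zero_le p) hp, A.res_inc _ (Nat.zero_le p) hp] at this

theorem conn_zero (A : Att W 0) (hW : Conn W) : Conn A.V := by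
  classical
  obtain ⟨⟨v⟩, hW⟩ := hW
  refine ⟨⟨A.inc le_rfl v⟩, ?_⟩
  intro q hq
  have h1 : ∀ e : Sx W 1, q (A.inc le_rfl (res (SimplexCategory.δ 0) e)) ↔
      q (A.inc le_rfl (res (SimplexCategory.δ 1) e)) := by
    apply inv_of_tree A.t (fun w => q (A.inc le_rfl w))
    intro s
    exact hq (A.treeS s)
  have h2 : ∀ a b, q (A.inc le_rfl a) → q (A.inc le_rfl b) :=
    hW (fun w => q (A.inc le_rfl w)) h1
  have h2' : ∀ a b, q (A.inc le_rfl a) ↔ q (A.inc le_rfl b) := fun a b => ⟨h2 a b, h2 b a⟩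
  have h3 : ∀ (j : A.ι) (k : ℕ) (hk : k ≤ (A.wd j).r) (i i' : Fin 2),
      q (res (SimplexCategory.δ i) (A.cellS j k hk)) →
        q (res (SimplexCategory.δ i') (A.cellS j k hk)) := by
    intro j k hk i i'
    have := hq (A.cellS j k hk)
    fin_cases i <;> fin_cases i'
    · exact id
    · exact this.1
    · exact this.2
    · exact id
  have h4 : ∀ (j : A.ι) (k : ℕ) (hk : k ≤ (A.wd j).r) (i : Fin 2),
      q (res (SimplexCategory.δ i) (A.cellS j k hk)) ↔ q (A.inc le_rfl v) := by
    intro j k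
    induction k with
    | zero =>
      intro hk i
      have hne := (A.wd j).ne 0
      have e : res (SimplexCategory.δ ((A.wd j).i 0)) (A.cellS j 0 hk) =
          A.inc le_rfl (res (SimplexCategory.δ ((A.wd j).i 0)) ((A.wd j).ρ 0)) := by
        apply A.face_unl
        rw [A.lab_δ, if_neg (fun h => absurd h.1 (Nat.lt_irrefl 0)), if_neg (fun h => hne h.2)]
      have e2 : q (res (SimplexCategory.δ ((A.wd j).i 0)) (A.cellS j 0 hk)) ↔
          q (A.inc le_rfl v) := by
        rw [e]
        exact h2' _ _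
      rw [← e2]
      exact ⟨h3 j 0 hk _ _, h3 j 0 hk _ _⟩
    | succ k ih =>
      intro hk i
      rw [← ih (by omega) ((A.wd j).o k), A.face_glue j k hk]
      exact ⟨h3 j (k + 1) hk _ _, h3 j (k + 1) hk _ _⟩
  have h5 : ∀ x : Sx A.V 0, q x ↔ q (A.inc le_rfl v) := by
    intro x
    rcases A.und_in x with ⟨w, f, h⟩ | ⟨s, f, h⟩ | ⟨j, k, hk, f, h⟩
    · have : x = A.inc le_rfl (res f w) := A.und_inj h
      rw [this]
      exact h2' _ _
    · have : x = A.inc le_rfl (res f (A.t.tr s)) := A.und_inj h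
      rw [this]
      exact h2' _ _
    · have : x = res f (A.cellS j k hk) := A.und_inj h
      rw [this]
      have hf : f = SimplexCategory.δ 0 ∨ f = SimplexCategory.δ 1 := by
        have h6 : ∀ z : Fin 2, z = 0 ∨ z = 1 := by decide
        rcases h6 ((f.toOrderHom : Fin 1 → Fin 2) 0) with h7 | h7
        · right
          ext a
          fin_cases a
          exact congrArg Fin.val h7
        · left
          ext a
          fin_cases a
          exact congrArg Fin.val h7
      rcases hf with rfl | rfl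
      · exact h4 j k hk 0
      · exact h4 j k hk 1
  intro a b ha
  exact (h5 b).2 ((h5 a).1 ha)

end Att

/-- The lifting theorem: every linear map to the homology of a connected simplicial set `W` is
realised, up to an isomorphism, by a map from a connected simplicial set. -/
theorem liftThm {p : ℕ} (hp : p = 0 ∨ p = 1) {W : SSet.{0}} (hW : Conn W) {U : Type}
    [AddCommGroup U] [Module F2 U] (π : Zt W p →ₗ[F2] U)
    (hker : ∀ z : Zt W p, π z = 0 ↔ z.1 ∈ Bt W p) (hsurj : Function.Surjective π)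
    {U' : Type} [AddCommGroup U'] [Module F2 U'] (f : U' →ₗ[F2] U) :
    ∃ (V : SSet.{0}) (g : V ⟶ W) (π' : Zt V p →ₗ[F2] U'), Conn V ∧ Function.Surjective π' ∧
      (∀ z : Zt V p, π' z = 0 ↔ z.1 ∈ Bt V p) ∧ ∀ z, f (π' z) = π (pz g p z) := by
  classical
  obtain ⟨t⟩ := exists_tree W p
  have hπ : ∀ z : Zt W p, z.1 ∈ Bt W p → π z = 0 := fun z hz => (hker z).2 hz
  have h0 : ∀ a b : Sx W p, RR t π a b 0 := by
    rcases hp with rfl | rfl
    · exact walk_zero hW t π hπ
    · exact walk_one hW t π hπ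
  obtain ⟨v⟩ := hW.1
  let κ : Sx W p := res (SimplexCategory.const _ _ 0) v
  let b := Module.Basis.ofVectorSpace F2 U'
  have hwd : ∀ j, ∃ w : WD W p, Cl t π w.total (f (b j)) := by
    intro j
    obtain ⟨z, hz⟩ := hsurj (f (b j))
    have h1 : Cl t π z.1 (f (b j)) := by
      rw [← hz]
      exact cl_zt z
    obtain ⟨x, h2, h3⟩ := exists_walk h0 z.1 _ h1 κ κ
    obtain ⟨w, h4, _⟩ := h2.exists_wd
    exact ⟨w, by rw [h4]; exact h3⟩
  choose wd hwd using hwd
  let A : Att W p := ⟨t, _, wd⟩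
  have hy : ∀ j : A.ι, ∃ y : Zt A.V p, A.PP y.1 = Finsupp.single j 1 ∧
      π (pz A.g p y) = f (b j) := fun j => A.exists_cycle j _ (hwd j)
  choose y hy1 hy2 using hy
  let e : (A.ι →₀ F2) ≃ₗ[F2] U' := b.repr.symm
  let P : Zt A.V p →ₗ[F2] (A.ι →₀ F2) := A.PP ∘ₗ (Zt A.V p).subtype
  let Y : (A.ι →₀ F2) →ₗ[F2] Zt A.V p := Finsupp.linearCombination F2 y
  have hPY : ∀ c, P (Y c) = c := by
    intro c
    have : P ∘ₗ Y = LinearMap.id := by
      apply Finsupp.lhom_ext'
      intro j
      apply LinearMap.ext_ring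
      simp only [LinearMap.comp_apply, Finsupp.lsingle_apply, Y,
        Finsupp.linearCombination_single, one_smul, LinearMap.id_apply]
      exact hy1 j
    exact congrArg (fun l => l c) this
  have hfY : ∀ c, π (pz A.g p (Y c)) = f (e c) := by
    intro c
    have : π ∘ₗ pz A.g p ∘ₗ Y = f ∘ₗ e.toLinearMap := by
      apply Finsupp.lhom_ext'
      intro j
      apply LinearMap.ext_ring
      simp only [LinearMap.comp_apply, Finsupp.lsingle_apply, Y,
        Finsupp.linearCombination_single, one_smul, LinearEquiv.coe_coe]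
      rw [hy2 j]
      congr 1
    exact congrArg (fun l => l c) this
  have hker' : ∀ z : Zt A.V p, P z = 0 → z.1 ∈ DD A.V (p + 1) := fun z hz =>
    A.mem_DD_of_PP z.2 hz
  refine ⟨A.V, A.g, e.toLinearMap ∘ₗ P, ?_, ?_, ?_, ?_⟩
  · rcases hp with rfl | rfl
    · exact A.conn_zero hW
    · exact A.conn_pos le_rfl hW
  · intro u
    refine ⟨Y (e.symm u), ?_⟩
    change e (P (Y (e.symm u))) = u
    rw [hPY, LinearEquiv.apply_symm_apply]
  · intro z
    change e (P z) = 0 ↔ _
    rw [LinearEquiv.map_eq_zero_iff]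
    exact ⟨fun h => Submodule.mem_sup_left (hker' z h), fun h => A.PP_Bt h⟩
  · intro z
    change f (e (P z)) = π (pz A.g p z)
    have h1 : P (z - Y (P z)) = 0 := by
      rw [LinearMap.map_sub, hPY, sub_self]
    have h2 := hker' _ h1
    have h3 : π (pz A.g p (z - Y (P z))) = 0 := by
      apply hπ
      exact Submodule.mem_sup_left (pf_DD A.g h2)
    rw [LinearMap.map_sub, LinearMap.map_sub, sub_eq_zero] at h3
    rw [h3, hfY]

end Pool.Agent.W2helper51.HSC
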