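import Mathlib
import Pool.Agent.H642R3.Hom.Sem
import Pool.Agent.W2helper51.HSC.Chains

set_option autoImplicit false

/-!
# The semantics in vector spaces
-/

open CategoryTheory
open Pool.Agent.H642R3.Hom

namespace Pool.Agent.W2helper51.HSC

/-- The signature with one sort and no function symbols. -/
abbrev sig1 : Signature where
  Srt := Unit
  Fn := Empty
  arity := fun f => f.elim
  dom := fun f => f.elim
  cod := fun f => f.elim

/-- The structure given by a simplicial set. -/
def strOf (X : SSet.{0}) : Str sig1 where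
  obj := fun _ => X
  fn := fun f => f.elim

/-- Environments in the dual of a vector space. -/
abbrev Env (Γ : List Unit) (U : ModuleCat.{0} F2) : Type :=
  (a : Unit) → Var Γ a → Module.Dual F2 U

/-- Pull-back of an environment. -/
def Env.pull {Γ : List Unit} {U U' : ModuleCat.{0} F2} (e : Env Γ U) (f : U' →ₗ[F2] U) :
    Env Γ U' := fun a x => (e a x) ∘ₗ f

/-- Extension of an environment. -/
def Env.cons {Γ : List Unit} {A : Unit} {U : ModuleCat.{0} F2} (μ : Module.Dual F2 U)
    (e : Env Γ U) : Env (A :: Γ) U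
  | _, .zero => μ
  | _, .succ x => e _ x

/-- The variable of a term. -/
def tmVar {Γ : List Unit} : {A : Unit} → Tm sig1 Γ A → Var Γ A
  | _, .var x => x
  | _, .app f _ => f.elim

/-- The semantics in vector spaces. -/
def VF : {Γ : List Unit} → Fm sig1 Γ → (U : ModuleCat.{0} F2) → Env Γ U → Prop
  | _, .top, _, _ => True
  | _, .bot, _, _ => False
  | _, .eq s t, _, e => e _ (tmVar s) = e _ (tmVar t)
  | _, .and φ ψ, U, e => VF φ U e ∧ VF ψ U e
  | _, .or φ ψ, U, e => VF φ U e ∨ VF ψ U e
  | _, .imp φ ψ, U, e => ∀ (U' : ModuleCat.{0} F2) (f : U' →ₗ[F2] U),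
      VF φ U' (e.pull f) → VF ψ U' (e.pull f)
  | _, .all _ φ, U, e => ∀ (U' : ModuleCat.{0} F2) (f : U' →ₗ[F2] U) (μ : Module.Dual F2 U'),
      VF φ U' (Env.cons μ (e.pull f))
  | _, .ex _ φ, U, e => ∃ μ : Module.Dual F2 U, VF φ U (Env.cons μ e)

end Pool.Agent.W2helper51.HSC
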