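import Mathlib
import Pool.Agent.H642R3.Hom.Truth
import Pool.Agent.H642R3.Hom.Exist
import Pool.Agent.W2helper51.HSC.LiftThm
import Pool.Agent.W2helper51.HSC.Comp
import Pool.Agent.W2helper51.HSC.Homotopy
import Pool.Agent.W2helper51.HSC.VSem

set_option autoImplicit false

/-!
# The bisimulation

Truth at a connected stage over a simplicial set equivalent to `KK p`, `p = 0, 1`, is reduced to
a semantics in vector spaces over `ZMod 2` which does not depend on `p`.
-/

open CategoryTheory Opposite Simplicial Limits MonoidalCategory CartesianMonoidalCategory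
open Pool.Agent.H642R3.Hom

namespace Pool.Agent.W2helper51.HSC

/-- The map `c` is an equivalence: it induces bijections on homotopy classes of maps from all
simplicial sets. -/
def Equi {X Y : SSet.{0}} (c : X ⟶ Y) : Prop :=
  (∀ (D : SSet.{0}) (v : D ⟶ Y), ∃ u : D ⟶ X, Htp (u ≫ c) v) ∧
  ∀ (D : SSet.{0}) (u u' : D ⟶ X), Htp (u ≫ c) (u' ≫ c) ↔ Htp u u'

section rel

variable {p : ℕ} {X : SSet.{0}} (cc : X ⟶ KK p)

/-- The map of a variable. -/
noncomputable def vm {Γ : List Unit} {D : SSet.{0}} (h : D ⟶ (strOf X).ctx Γ)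
    {a : Unit} (x : Var Γ a) : D ⟶ X := h ≫ (strOf X).tm (.var x : Tm sig1 Γ a)

/-- The relation between stages and vector spaces. -/
def Rel {Γ : List Unit} {D : SSet.{0}} (h : D ⟶ (strOf X).ctx Γ)
    (U : ModuleCat.{0} F2) (e : Env Γ U) (π : Zt D p →ₗ[F2] U) : Prop :=
  Function.Surjective π ∧ (∀ z : Zt D p, π z = 0 ↔ z.1 ∈ Bt D p) ∧
    ∀ (a : Unit) (x : Var Γ a) (z : Zt D p), ev (toCoc (vm h x ≫ cc)).v z.1 = e a x (π z)

variable {cc}

theorem exists_quot (D : SSet.{0}) (p : ℕ) : ∃ (U : ModuleCat.{0} F2) (π : Zt D p →ₗ[F2] U),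
    Function.Surjective π ∧ ∀ z : Zt D p, π z = 0 ↔ z.1 ∈ Bt D p := by
  let l : Zt D p →ₗ[F2] (Ch D (p + 1) ⧸ Bt D p) := (Bt D p).mkQ ∘ₗ (Zt D p).subtype
  refine ⟨ModuleCat.of F2 (LinearMap.range l), l.rangeRestrict,
    LinearMap.surjective_rangeRestrict l, ?_⟩
  intro z
  have h1 : l.rangeRestrict z = 0 ↔ l z = 0 := by
    constructor
    · intro h
      exact congrArg Subtype.val h
    · intro h
      exact Subtype.ext h
  refine h1.trans ?_
  exact Submodule.Quotient.mk_eq_zero _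

/-- Functionals on cycles vanishing on boundaries descend. -/
theorem descend {D : SSet.{0}} {U : Type} [AddCommGroup U] [Module F2 U] {π : Zt D p →ₗ[F2] U}
    (hs : Function.Surjective π) {M : Type} [AddCommGroup M] [Module F2 M]
    (l : Zt D p →ₗ[F2] M) (hl : ∀ z, π z = 0 → l z = 0) :
    ∃ μ : U →ₗ[F2] M, ∀ z, l z = μ (π z) := by
  obtain ⟨s, hs'⟩ := LinearMap.exists_rightInverse_of_surjective π (LinearMap.range_eq_top.2 hs)
  refine ⟨l ∘ₗ s, fun z => ?_⟩
  have h1 : π (z - s (π z)) = 0 := by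
    rw [LinearMap.map_sub]
    have := congrArg (fun k => k (π z)) hs'
    simp only [LinearMap.comp_apply, LinearMap.id_apply] at this
    rw [this, sub_self]
  have h2 := hl _ h1
  rw [LinearMap.map_sub, sub_eq_zero] at h2
  exact h2

theorem coc_descend {D : SSet.{0}} {U : Type} [AddCommGroup U] [Module F2 U]
    {π : Zt D p →ₗ[F2] U} (hs : Function.Surjective π)
    (hk : ∀ z : Zt D p, π z = 0 ↔ z.1 ∈ Bt D p) (φ : Coc D p) :
    ∃ μ : Module.Dual F2 U, ∀ z : Zt D p, ev φ.v z.1 = μ (π z) := by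
  obtain ⟨μ, hμ⟩ := descend hs (ev φ.v ∘ₗ (Zt D p).subtype) (by
    intro z hz
    exact ev_Bt φ ((hk z).1 hz))
  exact ⟨μ, hμ⟩

/-- Every stage over a related stage is related to a vector space over the given one. -/
theorem rel_pull {Γ : List Unit} {D D' : SSet.{0}} {h : D ⟶ (strOf X).ctx Γ}
    {U : ModuleCat.{0} F2} {e : Env Γ U} {π : Zt D p →ₗ[F2] U} (hR : Rel cc h U e π)
    (g : D' ⟶ D) : ∃ (U' : ModuleCat.{0} F2) (f : U' →ₗ[F2] U) (π' : Zt D' p →ₗ[F2] U'),
      Rel cc (g ≫ h) U' (e.pull f) π' := by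
  obtain ⟨hs, hk, he⟩ := hR
  obtain ⟨U', π', hs', hk'⟩ := exists_quot D' p
  obtain ⟨f, hf⟩ := descend hs' (π ∘ₗ pz g p) (by
    intro z hz
    exact (hk _).2 (pf_Bt g ((hk' z).1 hz)))
  refine ⟨U', f, π', hs', hk', ?_⟩
  intro a x z
  have h1 := he a x (pz g p z)
  have h2 := hf z
  change _ = e a x (f (π' z))
  rw [← h2]
  change _ = e a x (π (pz g p z))
  rw [← h1]
  change ev (toCoc (g ≫ (vm h x ≫ cc))).v z.1 = ev (toCoc (vm h x ≫ cc)).v (pf g (p + 1) z.1)
  rw [← ev_pull]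
  rfl

/-- Lifting. -/
theorem rel_lift (hp : p = 0 ∨ p = 1) {Γ : List Unit} {D : SSet.{0}} (hD : Conn D)
    {h : D ⟶ (strOf X).ctx Γ}
    {U : ModuleCat.{0} F2} {e : Env Γ U} {π : Zt D p →ₗ[F2] U} (hR : Rel cc h U e π)
    (U' : ModuleCat.{0} F2) (f : U' →ₗ[F2] U) :
    ∃ (D' : SSet.{0}) (g : D' ⟶ D) (π' : Zt D' p →ₗ[F2] U'), Conn D' ∧
      Rel cc (g ≫ h) U' (e.pull f) π' := by
  obtain ⟨hs, hk, he⟩ := hR
  obtain ⟨D', g, π', hc, hs', hk', hf⟩ := liftThm hp hD π hk hs f
  refine ⟨D', g, π', hc, hs', hk', ?_⟩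
  intro a x z
  have h1 := he a x (pz g p z)
  have h2 := hf z
  change _ = e a x (f (π' z))
  rw [h2, ← h1]
  change ev (toCoc (g ≫ (vm h x ≫ cc))).v z.1 = ev (toCoc (vm h x ≫ cc)).v (pf g (p + 1) z.1)
  rw [← ev_pull]
  rfl

/-- Extension by a variable. -/
theorem rel_cons {Γ : List Unit} {A : Unit} {D : SSet.{0}} {h : D ⟶ (strOf X).ctx Γ}
    {k : D ⟶ (strOf X).ctx (A :: Γ)} (hk : k ≫ (strOf X).proj A Γ = h)
    {U : ModuleCat.{0} F2} {e : Env Γ U} {π : Zt D p →ₗ[F2] U} (hR : Rel cc h U e π)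
    (μ : Module.Dual F2 U)
    (hμ : ∀ z : Zt D p, ev (toCoc (vm k (.zero : Var (A :: Γ) A) ≫ cc)).v z.1 = μ (π z)) :
    Rel cc k U (Env.cons μ e) π := by
  obtain ⟨hs, hkk, he⟩ := hR
  refine ⟨hs, hkk, ?_⟩
  intro a x z
  cases x with
  | zero => exact hμ z
  | succ x =>
    have : vm k (.succ x) = vm h x := by
      unfold vm
      rw [← hk]
      exact (Category.assoc k ((strOf X).proj A Γ)
        ((strOf X).tm (.var x : Tm sig1 Γ a))).symm
    rw [this]
    exact he a x z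

end rel

section main

variable {p : ℕ} {X : SSet.{0}} {cc : X ⟶ KK p}

theorem htp_iff_path {D X : SSet.{0}} (f g : D ⟶ X) :
    Htp f g ↔ ∃ h : D ⟶ pathSpace X, lift f g = h ≫ ends X := by
  constructor
  · rintro ⟨H, h0, h1⟩
    refine ⟨MonoidalClosed.curry H, ?_⟩
    have e0 := curry_endpoint H 0
    have e1 := curry_endpoint H 1
    have h2 : (MonoidalClosed.curry H : D ⟶ pathSpace X) ≫ ends X =
        lift ((MonoidalClosed.curry H : D ⟶ pathSpace X) ≫ endpoint X 0)
          ((MonoidalClosed.curry H : D ⟶ pathSpace X) ≫ endpoint X 1) := comp_lift _ _ _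
    refine Eq.trans ?_ h2.symm
    rw [e0, e1]
    exact congrArg₂ lift h0.symm h1.symm
  · rintro ⟨h, hh⟩
    refine ⟨MonoidalClosed.uncurry h, ?_, ?_⟩
    · refine (endpoint_eq h 0).symm.trans ?_
      have := congrArg (fun k => k ≫ fst X X) hh
      simp only [lift_fst, Category.assoc, ends] at this
      exact this.symm
    · refine (endpoint_eq h 1).symm.trans ?_
      have := congrArg (fun k => k ≫ snd X X) hh
      simp only [lift_snd, Category.assoc, ends] at this
      exact this.symm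

/-- Functionals on the homology are realised by maps to `X`. -/
theorem exists_real (hpr : PrismProp p) (hc : Equi cc) {W : SSet.{0}} {U : Type}
    [AddCommGroup U] [Module F2 U] (π : Zt W p →ₗ[F2] U)
    (hπ : ∀ z : Zt W p, z.1 ∈ Bt W p → π z = 0) (μ : Module.Dual F2 U) :
    ∃ u : W ⟶ X, ∀ z : Zt W p, ev (toCoc (u ≫ cc)).v z.1 = μ (π z) := by
  obtain ⟨c, hc'⟩ := exists_cocycle π hπ μ
  obtain ⟨u, hu⟩ := hc.1 W (ofCoc c)
  refine ⟨u, fun z => ?_⟩
  rw [← hc' z, (htp_iff hpr _ _).1 hu z.1 z.2]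
  congr 1
  congr 1
  funext x
  exact toCoc_ofCoc c x

theorem main_eq (hpr : PrismProp p) (hc : Equi cc) (I : Interpretation (strOf X)) {Γ : List Unit}
    (D : Over ((strOf X).ctx Γ)) {U : ModuleCat.{0} F2} {e : Env Γ U}
    {π : Zt D.left p →ₗ[F2] U} (hR : Rel cc D.hom U e π) {A : Unit} (x y : Var Γ A) :
    I.F D (Fm.eq (σ := sig1) (.var x) (.var y)) ↔ e A x = e A y := by
  rw [Interpretation.f_eq]
  have h1 : (∃ h : D.left ⟶ pathSpace ((strOf X).obj A),
      D.hom ≫ lift ((strOf X).tm (.var x : Tm sig1 Γ A))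
        ((strOf X).tm (.var y : Tm sig1 Γ A)) = h ≫ ends ((strOf X).obj A)) ↔
      Htp (vm D.hom x) (vm D.hom y) := by
    rw [comp_lift]
    exact (htp_iff_path _ _).symm
  refine h1.trans ?_
  rw [← hc.2, htp_iff hpr]
  obtain ⟨hs, hk, he⟩ := hR
  constructor
  · intro h
    ext u
    obtain ⟨z, rfl⟩ := hs u
    rw [← he A x z, ← he A y z]
    exact h z.1 z.2
  · intro h z hz
    have e1 := he A x ⟨z, hz⟩
    have e2 := he A y ⟨z, hz⟩
    exact e1.trans ((congrArg (fun l : Module.Dual F2 U => l (π ⟨z, hz⟩)) h).trans e2.symm)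

theorem main (hp : p = 0 ∨ p = 1) (hpr : PrismProp p) (hcc : Equi cc) (I : Interpretation (strOf X))
    {Γ : List sig1.Srt} (φ : Fm sig1 Γ) :
    ∀ (D : Over ((strOf X).ctx Γ)), Conn D.left → ∀ (U : ModuleCat.{0} F2) (e : Env Γ U)
      (π : Zt D.left p →ₗ[F2] U), Rel cc D.hom U e π → (I.F D φ ↔ VF φ U e) := by
  induction φ with
  | @top Γ =>
    intro D _ U e π _
    simp only [VF, iff_true]
    obtain ⟨i⟩ := I.top Γ
    exact ⟨Over.homMk D.hom (Category.comp_id _) ≫ i.inv⟩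
  | @bot Γ =>
    intro D hD U e π _
    simp only [VF, iff_false]
    rintro ⟨f⟩
    obtain ⟨v⟩ := hD.1
    exact (I.bot Γ (op ⦋0⦌)).false (f.left.app (op ⦋0⦌) v)
  | @eq Γ A s t =>
    intro D _ U e π hR
    cases s with
    | app f _ => exact f.elim
    | var x =>
      cases t with
      | app f _ => exact f.elim
      | var y => exact main_eq hpr hcc I D hR x y
  | @and Γ φ ψ ih1 ih2 =>
    intro D hD U e π hR
    rw [Interpretation.f_and, ih1 D hD U e π hR, ih2 D hD U e π hR]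
    rfl
  | @or Γ φ ψ ih1 ih2 =>
    intro D hD U e π hR
    have h1 : I.F D (φ.or ψ) ↔ I.F D φ ∨ I.F D ψ := by
      obtain ⟨i, j, ⟨h⟩⟩ := I.or φ ψ
      constructor
      · rintro ⟨f⟩
        exact or_of_conn hD f i j h
      · rintro (hf | hf)
        · obtain ⟨f⟩ : Nonempty (D ⟶ I.obj φ) := hf
          exact ⟨f ≫ i⟩
        · obtain ⟨f⟩ : Nonempty (D ⟶ I.obj ψ) := hf
          exact ⟨f ≫ j⟩
    rw [h1, ih1 D hD U e π hR, ih2 D hD U e π hR]
    rfl
  | @imp Γ φ ψ ih1 ih2 =>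
    intro D hD U e π hR
    rw [Interpretation.f_imp]
    constructor
    · intro h U' f hφ
      obtain ⟨D', g, π', hc, hR'⟩ := rel_lift hp hD hR U' f
      have h1 : I.F (Over.mk (g ≫ D.hom)) φ :=
        (ih1 (Over.mk (g ≫ D.hom)) hc U' (e.pull f) π' hR').2 hφ
      obtain ⟨a⟩ := h1
      have h2 : Over.mk (g ≫ D.hom) ⟶ D := Over.homMk g
      exact (ih2 (Over.mk (g ≫ D.hom)) hc U' (e.pull f) π' hR').1
        (I.f_of_hom (prod.lift a h2) h)
    · intro h
      apply assemble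
      intro c
      let E : Over ((strOf X).ctx Γ) := I.obj φ ⨯ D
      let Ec : Over ((strOf X).ctx Γ) := Over.mk (compι E.left c ≫ E.hom)
      let ec : Ec ⟶ E := Over.homMk (compι E.left c)
      have hφ : I.F Ec φ := I.f_of_hom (ec ≫ prod.fst) (I.f_self φ)
      let b : Ec ⟶ D := ec ≫ prod.snd
      obtain ⟨U', f, π', hR'⟩ := rel_pull hR b.left
      have hw : b.left ≫ D.hom = Ec.hom := Over.w b
      rw [hw] at hR'
      have hc : Conn Ec.left := conn_comp E.left c
      have h1 := h U' f ((ih1 Ec hc U' (e.pull f) π' hR').1 hφ)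
      exact (ih2 Ec hc U' (e.pull f) π' hR').2 h1
  | @all Γ A φ ih =>
    intro D hD U e π hR
    rw [Interpretation.f_all]
    constructor
    · intro h U' f μ
      obtain ⟨D', g, π', hc, hR'⟩ := rel_lift hp hD hR U' f
      obtain ⟨c, hc'⟩ := exists_real hpr hcc π' (fun z hz => (hR'.2.1 z).2 hz) μ
      let k : D' ⟶ (strOf X).ctx (A :: Γ) :=
        (strOf X).cons (A := A) (c : D' ⟶ X) (g ≫ D.hom)
      have hk : k ≫ (strOf X).proj A Γ = g ≫ D.hom := (strOf X).cons_proj _ _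
      have hR'' := rel_cons (A := A) (k := k) hk hR' μ (by
        intro z
        rw [← hc' z]
        have : vm k (.zero : Var (A :: Γ) A) = c := (strOf X).cons_zero _ _
        rw [this])
      have h2 : Over.mk k ⟶ (Over.pullback ((strOf X).proj A Γ)).obj D :=
        Over.homMk (pullback.lift g k hk.symm) (pullback.lift_snd _ _ _)
      exact (ih (Over.mk k) hc U' _ π' hR'').1 (I.f_of_hom h2 h)
    · intro h
      apply assemble
      intro c
      let E : Over ((strOf X).ctx (A :: Γ)) :=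
        (Over.pullback ((strOf X).proj A Γ)).obj D
      let Ec : Over ((strOf X).ctx (A :: Γ)) := Over.mk (compι E.left c ≫ E.hom)
      let b : Ec.left ⟶ D.left := compι E.left c ≫ pullback.fst D.hom _
      have hw : b ≫ D.hom = Ec.hom ≫ (strOf X).proj A Γ := by
        change (compι E.left c ≫ pullback.fst D.hom _) ≫ D.hom =
          (compι E.left c ≫ pullback.snd D.hom _) ≫ (strOf X).proj A Γ
        rw [Category.assoc, Category.assoc, pullback.condition]
      obtain ⟨U', f, π', hR'⟩ := rel_pull hR b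
      obtain ⟨μ, hμ⟩ := coc_descend hR'.1 hR'.2.1
        (toCoc (vm Ec.hom (.zero : Var (A :: Γ) A) ≫ cc))
      have hR'' := rel_cons (A := A) (k := Ec.hom) hw.symm hR' μ hμ
      have hc : Conn Ec.left := conn_comp E.left c
      exact (ih Ec hc U' _ π' hR'').2 (h U' f μ)
  | @ex Γ A φ ih =>
    intro D hD U e π hR
    rw [Interpretation.f_ex]
    constructor
    · rintro ⟨k, hk, h⟩
      obtain ⟨μ, hμ⟩ := coc_descend hR.1 hR.2.1
        (toCoc (vm k (.zero : Var (A :: Γ) A) ≫ cc))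
      have hR' := rel_cons (A := A) (k := k) hk hR μ hμ
      exact ⟨μ, (ih (Over.mk k) hD U _ π hR').1 h⟩
    · rintro ⟨μ, h⟩
      obtain ⟨c, hc'⟩ := exists_real hpr hcc π (fun z hz => (hR.2.1 z).2 hz) μ
      let k : D.left ⟶ (strOf X).ctx (A :: Γ) :=
        (strOf X).cons (A := A) (c : D.left ⟶ X) D.hom
      have hk : k ≫ (strOf X).proj A Γ = D.hom := (strOf X).cons_proj _ _
      have hR' := rel_cons (A := A) (k := k) hk hR μ (by
        intro z
        rw [← hc' z]
        have : vm k (.zero : Var (A :: Γ) A) = c := (strOf X).cons_zero _ _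
        rw [this])
      exact ⟨k, hk, (ih (Over.mk k) hD U _ π hR').2 h⟩

end main

end Pool.Agent.W2helper51.HSC
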