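import Mathlib
import Pool.Agent.W2helper51.HSC.Main
import Pool.Agent.W2helper51.HSC.Kan

set_option autoImplicit false

/-!
# Truth over `KK 0` and `KK 1`, and their fundamental groups
-/

open CategoryTheory Opposite Simplicial Limits MonoidalCategory CartesianMonoidalCategory
open Pool.Agent.H642R3.Hom

namespace Pool.Agent.W2helper51.HSC

section point

/-- The simplices of the point. -/
theorem pt_subsingleton (n : SimplexCategoryᵒᵖ) (x y : (𝟙_ SSet.{0}).obj n) : x = y :=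
  Subsingleton.elim (α := PUnit) x y

/-- The vertex of the point. -/
def pt0 : Sx (𝟙_ SSet.{0}) 0 := (PUnit.unit : PUnit)

theorem conn_pt : Conn (𝟙_ SSet.{0}) := by
  refine ⟨⟨pt0⟩, ?_⟩
  intro q _ a b ha
  rwa [pt_subsingleton _ b a]

theorem deg_pt {p : ℕ} (x : Sx (𝟙_ SSet.{0}) (p + 1)) : Deg x :=
  ⟨0, Nat.succ_pos p, SimplexCategory.const _ _ 0, pt0, pt_subsingleton _ _ _⟩

theorem mem_Bt_pt {p : ℕ} (c : Ch (𝟙_ SSet.{0}) (p + 1)) : c ∈ Bt (𝟙_ SSet.{0}) p := by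
  induction c using ch_induction with
  | h0 => exact Submodule.zero_mem _
  | hadd a b ha hb => exact Submodule.add_mem _ ha hb
  | hs x => exact Submodule.mem_sup_left (sg_mem_DD (deg_pt x))

/-- The environment with no variables. -/
def env0 (U : ModuleCat.{0} F2) : Env [] U := fun _ x => nomatch x

/-- The zero vector space. -/
def U0 : ModuleCat.{0} F2 := ModuleCat.of F2 PUnit

theorem rel_pt {p : ℕ} {X : SSet.{0}} (cc : X ⟶ KK p) :
    Rel cc (Γ := []) (𝟙 (𝟙_ SSet.{0})) U0 (env0 U0) 0 := by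
  refine ⟨?_, ?_, ?_⟩
  · intro u
    exact ⟨0, Subsingleton.elim (α := PUnit) _ _⟩
  · intro z
    exact ⟨fun _ => mem_Bt_pt _, fun _ => rfl⟩
  · intro a x
    exact nomatch x

theorem true_iff {M : Str sig1} (I : Interpretation M) (φ : Sentence sig1) :
    I.True φ ↔ I.F (Over.mk (𝟙 (M.ctx []))) φ := by
  constructor
  · intro h
    have h1 : Nonempty ((I.obj φ).left _⦋0⦌) := h
    obtain ⟨v⟩ := h1
    exact ⟨Over.homMk ((SSet.unitHomEquiv _).symm v) (M.hom_nil _ _)⟩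
  · exact I.true_of_force φ

/-- Truth over a simplicial set equivalent to `KK p` does not depend on `p = 0, 1`. -/
theorem true_of_equi {p : ℕ} (hp : p = 0 ∨ p = 1) {X : SSet.{0}} {cc : X ⟶ KK p}
    (hcc : Equi cc) (I : Interpretation (strOf X)) (φ : Sentence sig1) :
    I.True φ ↔ VF φ U0 (env0 U0) := by
  rw [true_iff]
  have hpr : PrismProp p := by
    rcases hp with rfl | rfl
    · exact prismProp_zero
    · exact prismProp_one
  exact main hp hpr hcc I φ (Over.mk (𝟙 _)) conn_pt U0 (env0 U0) 0 (rel_pt cc)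

theorem htp_refl_KK {p : ℕ} (hp : p = 0 ∨ p = 1) {D : SSet.{0}} (v : D ⟶ KK p) : Htp v v := by
  have hpr : PrismProp p := by
    rcases hp with rfl | rfl
    · exact prismProp_zero
    · exact prismProp_one
  rw [htp_iff hpr]
  intro z _
  rfl

theorem equi_id {p : ℕ} (hp : p = 0 ∨ p = 1) : Equi (𝟙 (KK p)) := by
  refine ⟨fun D v => ⟨v, ?_⟩, fun D u u' => ?_⟩
  · rw [Category.comp_id]
    exact htp_refl_KK hp v
  · rw [Category.comp_id, Category.comp_id]

end point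

section groups

/-- A Kan complex is path-connected if it has a vertex and any two vertices are joined by an
edge. -/
def PathConn (X : SSet.{0}) : Prop :=
  Nonempty (X _⦋0⦌) ∧ ∀ x y : X _⦋0⦌, ∃ e : X _⦋1⦌, X.δ 1 e = x ∧ X.δ 0 e = y

/-- A Kan complex is simply connected if it is path-connected (in particular nonempty) and every
loop is null-homotopic relative to its end points. -/
def SimplyConn (X : SSet.{0}) : Prop :=
  PathConn X ∧
  ∀ (x : X _⦋0⦌) (e : X _⦋1⦌), X.δ 1 e = x → X.δ 0 e = x →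
    ∃ s : X _⦋2⦌, X.δ 2 s = e ∧ X.δ 1 s = X.σ 0 x ∧ X.δ 0 s = X.σ 0 x

theorem KK_low {p m : ℕ} (h : m < p + 1) (a b : Sx (KK p) m) : a = b := by
  apply kv_ext
  intro γ
  have h1 := KS.deg (X := ⦋m⦌) a m h γ (𝟙 _)
  have h2 := KS.deg (X := ⦋m⦌) b m h γ (𝟙 _)
  rw [Category.comp_id] at h1 h2
  exact h1.trans h2.symm

theorem KK_path (p : ℕ) : PathConn (KK p) :=
  ⟨⟨kzero p 0⟩, fun _ _ =>
    ⟨kzero p 1, KK_low (Nat.succ_pos p) _ _, KK_low (Nat.succ_pos p) _ _⟩⟩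

theorem sc_one : SimplyConn (KK 1) := by
  refine ⟨KK_path 1, ?_⟩
  intro x e _ _
  exact ⟨kzero 1 2, KK_low (by omega) _ _, KK_low (by omega) _ _, KK_low (by omega) _ _⟩

open Classical in
/-- The values of the generator. -/
noncomputable def gv (γ : (⦋1⦌ : SimplexCategory) ⟶ ⦋1⦌) : F2 := if γ = 𝟙 _ then 1 else 0

theorem gv_comp {k : ℕ} (hk : k < 1) (β : (⦋1⦌ : SimplexCategory) ⟶ ⦋k⦌) (γ : ⦋k⦌ ⟶ ⦋1⦌) :
    gv (β ≫ γ) = 0 := by
  have hk' : k = 0 := by omega
  subst hk'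
  apply if_neg
  intro h
  have h1 : Mono (β ≫ γ) := by rw [h]; infer_instance
  have h2 : Mono β := mono_of_mono β γ
  exact Att.not_mono (by omega) β h2

/-- The edge of `KK 0` given by the generator. -/
noncomputable def gen0 : Sx (KK 0) 1 :=
  ({ v := gv
     deg := by
      intro k hk β γ
      exact gv_comp hk β γ
     coc := by
      intro γ
      obtain ⟨b, γ', rfl⟩ := factor_of_lt (by omega : 1 < 1 + 1) γ
      refine sum_deg (W := yoneda.obj (⦋1⦌ : SimplexCategory)) (k := 1) gv ?_ b γ'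
      rintro x ⟨m, hm, α, y, rfl⟩
      exact gv_comp hm α y } : KS 0 ⦋1⦌)

theorem kv_gen0 : kv gen0 (𝟙 _) = 1 := by
  change gv (𝟙 _) = 1
  exact if_pos rfl

theorem kv_face {m k : ℕ} {p : ℕ} (α : (⦋m⦌ : SimplexCategory) ⟶ ⦋k⦌) (c : Sx (KK p) k)
    (γ : ⦋p + 1⦌ ⟶ ⦋m⦌) (a : Sx (KK p) m) (h : res α c = a) : kv c (γ ≫ α) = kv a γ := by
  subst h
  rfl

theorem not_sc_zero : ¬ SimplyConn (KK 0) := by
  rintro ⟨_, h⟩
  obtain ⟨s, h2, h1, h0⟩ := h (kzero 0 0) gen0 (KK_low (Nat.succ_pos 0) _ _)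
    (KK_low (Nat.succ_pos 0) _ _)
  have hs := KS.coc (X := ⦋2⦌) s (𝟙 _)
  have d : ∀ i : Fin 3, KS.v (X := ⦋2⦌) s (SimplexCategory.δ i ≫ 𝟙 _) =
      kv s (𝟙 _ ≫ SimplexCategory.δ i) := by
    intro i
    rw [Category.comp_id, Category.id_comp]
    rfl
  have e2 : kv s (𝟙 _ ≫ SimplexCategory.δ 2) = 1 := by
    rw [kv_face (SimplexCategory.δ 2) s (𝟙 _) gen0 h2]
    exact kv_gen0
  have ez : kv (res (SimplexCategory.σ 0) (kzero 0 0)) (𝟙 _) = 0 := by
    rfl
  have e1 : kv s (𝟙 _ ≫ SimplexCategory.δ 1) = 0 := by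
    rw [kv_face (SimplexCategory.δ 1) s (𝟙 _) _ h1]
    exact ez
  have e0 : kv s (𝟙 _ ≫ SimplexCategory.δ 0) = 0 := by
    rw [kv_face (SimplexCategory.δ 0) s (𝟙 _) _ h0]
    exact ez
  simp only [d] at hs
  rw [Fin.sum_univ_three] at hs
  erw [e0, e1, e2] at hs
  simp at hs

/-- The sentence `φ` is true in the simplicial set `X`. -/
def TrueIn (X : SSet.{0}) (φ : Sentence sig1) : Prop :=
  ∃ I : Interpretation (strOf X), I.True φ

theorem trueIn_iff {p : ℕ} (hp : p = 0 ∨ p = 1) {X : SSet.{0}} {cc : X ⟶ KK p}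
    (hcc : Equi cc) (φ : Sentence sig1) : TrueIn X φ ↔ VF φ U0 (env0 U0) := by
  constructor
  · rintro ⟨I, hI⟩
    exact (true_of_equi hp hcc I φ).1 hI
  · intro h
    exact ⟨theInterpretation (strOf X), (true_of_equi hp hcc _ φ).2 h⟩

end groups

end Pool.Agent.W2helper51.HSC
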